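import Pool.Agent.T2h85.RR.Hilb

/-!
# Stationary sequences of roots
-/

namespace Pool.Agent.T2h85.RR

open Filter Topology

noncomputable section

section

variable {H : Type} [NormedAddCommGroup H] [InnerProductSpace ℝ H]

lemma eq_of_inner {x y : H} {s : ℝ} (hs : s ^ 2 = 1) (hx : inner ℝ x x = (1:ℝ))
    (hy : inner ℝ y y = (1:ℝ)) (hxy : inner ℝ x y = s) : x = s • y := by
  have h : inner ℝ (x - s • y) (x - s • y) = (0:ℝ) := by
    rw [inner_sub_left, inner_sub_right, inner_sub_right, inner_smul_left, inner_smul_right,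
      inner_smul_left, inner_smul_right, real_inner_comm x y, hx, hy, hxy]
    simp only [conj_trivial]
    linear_combination -hs
  rw [← sub_eq_zero]
  exact inner_self_eq_zero.1 h

end

/-- integer valued bounded functions along an ultrafilter -/
lemma int_lim {ι : Type} (U : Ultrafilter ι) (f : ι → ℤ) (C : ℤ) (h : ∀ i, |f i| ≤ C) :
    ∃ c : ℤ, ∀ᶠ i in (U : Filter ι), f i = c := by
  have hfin : (Set.Icc (-C) C : Set ℤ).Finite := Set.finite_Icc _ _
  have h1 : (U.map f : Ultrafilter ℤ) ≤ 𝓟 (Set.Icc (-C) C) := by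
    rw [Ultrafilter.coe_map, Filter.le_principal_iff, Filter.mem_map]
    exact Filter.Eventually.of_forall fun i => abs_le.1 (h i)
  obtain ⟨c, -, hc⟩ := (Ultrafilter.eq_pure_of_finite_mem hfin (le_principal_iff.1 h1))
  refine ⟨c, ?_⟩
  have h2 : ({c} : Set ℤ) ∈ (U.map f : Ultrafilter ℤ) := by
    rw [hc]
    exact Ultrafilter.mem_pure.2 rfl
  exact h2

lemma tendsto_of_int {ι : Type} {U : Ultrafilter ι} {f : ι → ℤ} {c : ℤ}
    (h : ∀ᶠ i in (U : Filter ι), f i = c) :
    Tendsto (fun i => ((f i : ℤ) : ℝ)) U (𝓝 (c : ℝ)) := by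
  refine tendsto_const_nhds.congr' ?_
  filter_upwards [h] with i hi
  rw [hi]

section

variable {H : Type} [NormedAddCommGroup H] [InnerProductSpace ℝ H] [CompleteSpace H]
  {v : ℤ → H} {a : ℤ → ℤ}

omit [CompleteSpace H] in
lemma a_even (hv : ∀ k l, inner ℝ (v k) (v l) = (a (k - l) : ℝ)) (k : ℤ) : a (-k) = a k := by
  have h1 := hv 0 k
  have h2 := hv k 0
  rw [real_inner_comm, h2] at h1
  have : a (k - 0) = a (0 - k) := by exact_mod_cast h1
  rw [sub_zero, zero_sub] at this
  exact this.symm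

omit [CompleteSpace H] in
lemma abs_int_le {c : ℤ} {x y : H} {A B : ℝ} (h : inner ℝ x y = (c : ℝ)) (hx : ‖x‖ ^ 2 = A)
    (hy : ‖y‖ ^ 2 = B) : (c : ℝ) ^ 2 ≤ A * B := by
  have h1 := abs_real_inner_le_norm x y
  rw [h] at h1
  rw [← hx, ← hy, ← sq_abs, ← mul_pow]
  exact pow_le_pow_left₀ (abs_nonneg _) h1 2

lemma sq_one_of {c : ℤ} (h : (c : ℝ) ^ 2 ≤ 1) (h0 : c ≠ 0) : (c : ℝ) ^ 2 = 1 := by
  have h1 : c ^ 2 ≤ 1 := by exact_mod_cast h
  have h2 : 1 ≤ c ^ 2 := by
    have := sq_pos_of_ne_zero h0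
    omega
  have : c ^ 2 = 1 := le_antisymm h1 h2
  exact_mod_cast this

/-- the case of infinite support -/
theorem classify_infinite (hv : ∀ k l, inner ℝ (v k) (v l) = (a (k - l) : ℝ)) (h0 : a 0 = 2)
    (h1 : ∀ k, k ≠ 0 → |a k| ≤ 1) (hinf : {k : ℤ | k ≠ 0 ∧ a k ≠ 0}.Infinite) :
    ∃ N : ℤ, 0 < N ∧ ∃ ε : ℤ, (ε = 1 ∨ ε = -1) ∧
      ∀ k, k ≠ 0 → a k = if N ∣ k then ε ^ (k / N).natAbs else 0 := by
  classical
  have ha2 : ∀ k, |a k| ≤ 2 := fun k => by
    by_cases hk : k = 0
    · rw [hk, h0]; norm_num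
    · exact (h1 k hk).trans (by norm_num)
  have hvn : ∀ k, ‖v k‖ ^ 2 = 2 := fun k => by
    rw [← real_inner_self_eq_norm_sq, hv, sub_self, h0]
    norm_num
  have hvn' : ∀ k, ‖v k‖ ≤ 2 := fun k => by
    have := hvn k
    nlinarith [norm_nonneg (v k)]
  set S : Set ℤ := {k : ℤ | k ≠ 0 ∧ a k ≠ 0} with hS
  have : NeBot (cofinite ⊓ 𝓟 S) := cofinite_inf_principal_neBot_iff.2 hinf
  set U : Ultrafilter ℤ := Ultrafilter.of (cofinite ⊓ 𝓟 S) with hU
  have hUle : (U : Filter ℤ) ≤ cofinite ⊓ 𝓟 S := Ultrafilter.of_le _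
  have hUc : ∀ T : Set ℤ, T.Finite → ∀ᶠ k in (U : Filter ℤ), k ∉ T := fun T hT =>
    (hUle.trans inf_le_left) hT.compl_mem_cofinite
  have hUS : ∀ᶠ k in (U : Filter ℤ), k ∈ S := (hUle.trans inf_le_right) (mem_principal_self S)
  -- the limits
  have hb : ∀ l : ℤ, ∃ c : ℤ, ∀ᶠ k in (U : Filter ℤ), a k * a (k + l) = c := fun l =>
    int_lim U _ 4 fun k => by
      rw [abs_mul]
      calc |a k| * |a (k + l)| ≤ 2 * 2 := mul_le_mul (ha2 _) (ha2 _) (abs_nonneg _) (by norm_num)
        _ = 4 := by norm_num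
  choose b hb using hb
  have hb1 : ∀ l, |b l| ≤ 1 := fun l => by
    obtain ⟨k, hk1, hk2⟩ := ((hb l).and (hUc {0, -l} (Set.toFinite _))).exists
    rw [← hk1, abs_mul]
    have hk3 : k ≠ 0 := fun h => hk2 (by simp [h])
    have hk4 : k + l ≠ 0 := fun h => hk2 (by
      have : k = -l := by omega
      simp [this])
    calc |a k| * |a (k + l)| ≤ 1 * 1 :=
          mul_le_mul (h1 _ hk3) (h1 _ hk4) (abs_nonneg _) (by norm_num)
      _ = 1 := by norm_num
  have hb0 : b 0 = 1 := by
    obtain ⟨k, hk1, hk2⟩ := ((hb 0).and hUS).exists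
    rw [add_zero] at hk1
    have h3 := h1 k hk2.1
    have h4 : (a k : ℝ) ^ 2 ≤ 1 := by
      have : |(a k : ℝ)| ≤ 1 := by exact_mod_cast h3
      rw [← sq_abs]
      exact pow_le_one₀ (abs_nonneg _) this
    have h5 := sq_one_of h4 hk2.2
    have : a k * a k = 1 := by
      have : (a k : ℝ) * a k = 1 := by rw [← sq]; exact h5
      exact_mod_cast this
    rw [← hk1, this]
  have hw : ∀ l, ∃ h : H, ∀ y, Tendsto (fun k => inner ℝ ((a k : ℝ) • v (k + l)) y) U
      (𝓝 (inner ℝ h y)) := fun l => weak_lim U _ 4 fun k => by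
    rw [norm_smul, Real.norm_eq_abs]
    have : |(a k : ℝ)| ≤ 2 := by exact_mod_cast ha2 k
    calc |(a k : ℝ)| * ‖v (k + l)‖ ≤ 2 * 2 :=
          mul_le_mul this (hvn' _) (norm_nonneg _) (by norm_num)
      _ = 4 := by norm_num
  choose h hh using hw
  have hhv : ∀ l m, inner ℝ (h l) (v m) = (b (l - m) : ℝ) := fun l m => by
    refine tendsto_nhds_unique (hh l (v m)) ?_
    refine (tendsto_of_int (hb (l - m))).congr fun k => ?_
    rw [inner_smul_left, hv]
    simp only [conj_trivial]
    push_cast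
    rw [add_sub_assoc]
  have hc : ∀ l : ℤ, ∃ c : ℤ, ∀ᶠ k in (U : Filter ℤ), a k * b (-k - l) = c := fun l =>
    int_lim U _ 2 fun k => by
      rw [abs_mul]
      calc |a k| * |b (-k - l)| ≤ 2 * 1 := mul_le_mul (ha2 _) (hb1 _) (abs_nonneg _) (by norm_num)
        _ = 2 := by norm_num
  choose c hc using hc
  have hhh : ∀ l m, inner ℝ (h l) (h m) = (c (l - m) : ℝ) := fun l m => by
    refine tendsto_nhds_unique (hh l (h m)) ?_
    refine (tendsto_of_int (hc (l - m))).congr fun k => ?_
    rw [inner_smul_left, real_inner_comm, hhv]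
    simp only [conj_trivial]
    push_cast
    congr 3
    ring
  have hc1 : ∀ l, |c l| ≤ 1 := fun l => by
    obtain ⟨k, hk1, hk2⟩ := ((hc l).and (hUc {0} (Set.toFinite _))).exists
    rw [← hk1, abs_mul]
    have hk3 : k ≠ 0 := fun h => hk2 (by simp [h])
    calc |a k| * |b (-k - l)| ≤ 1 * 1 :=
          mul_le_mul (h1 _ hk3) (hb1 _) (abs_nonneg _) (by norm_num)
      _ = 1 := by norm_num
  have hnh : ∀ l, ‖h l‖ ^ 2 = (c 0 : ℝ) := fun l => by
    rw [← real_inner_self_eq_norm_sq, hhh, sub_self]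
  have hc0 : c 0 = 1 := by
    have h2 := abs_int_le (hhv 0 0) (hnh 0) (hvn 0)
    rw [sub_self, hb0] at h2
    have h3 : (0:ℝ) < c 0 := by
      push_cast at h2
      nlinarith
    have h4 : 0 < c 0 := by exact_mod_cast h3
    have h5 := abs_le.1 (hc1 0)
    omega
  have hnh1 : ∀ l, inner ℝ (h l) (h l) = (1:ℝ) := fun l => by
    rw [hhh, sub_self, hc0]
    norm_num
  have hceven : ∀ l, c (-l) = c l := fun l => by
    have h2 := hhh 0 l
    have h3 := hhh l 0
    rw [real_inner_comm, h3] at h2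
    have : c (l - 0) = c (0 - l) := by exact_mod_cast h2
    rw [sub_zero, zero_sub] at this
    exact this.symm
  have hcsq : ∀ l, c l ≠ 0 → (c l : ℝ) ^ 2 = 1 := fun l hl => by
    refine sq_one_of ?_ hl
    have : |(c l : ℝ)| ≤ 1 := by exact_mod_cast hc1 l
    rw [← sq_abs]
    exact pow_le_one₀ (abs_nonneg _) this
  have hshift : ∀ l, c l ≠ 0 → ∀ m, h (m + l) = (c l : ℝ) • h m := fun l hl m => by
    refine eq_of_inner (hcsq l hl) (hnh1 _) (hnh1 _) ?_
    rw [hhh]
    congr 2
    ring
  -- some c l is not zero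
  obtain ⟨L, hL0, hL⟩ : ∃ l, l ≠ 0 ∧ c l ≠ 0 := by
    by_contra hcon
    push Not at hcon
    have horth : Orthonormal ℝ h := by
      constructor
      · intro l
        have := hnh l
        rw [hc0] at this
        have h3 : ‖h l‖ ^ 2 = 1 ^ 2 := by rw [this]; norm_num
        exact (pow_left_inj₀ (norm_nonneg _) (by norm_num) (by norm_num)).1 h3
      · intro l m hlm
        show inner ℝ (h l) (h m) = 0
        rw [hhh, hcon (l - m) (sub_ne_zero.2 hlm)]
        norm_num
    -- infinitely many nonzero b (-k)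
    have hTinf : {k : ℤ | b (-k) ≠ 0}.Infinite := by
      intro hfin
      obtain ⟨k, hk1, hk2⟩ := ((hc 0).and (hUc _ hfin)).exists
      rw [sub_zero, hc0] at hk1
      apply hk2
      intro hb'
      rw [hb', mul_zero] at hk1
      norm_num at hk1
    obtain ⟨T, hT1, hT2⟩ := hTinf.exists_subset_card_eq 3
    have h6 := horth.sum_inner_products_le (v 0) (s := T.image fun k => -k)
    rw [hvn 0, Finset.sum_image (fun x _ y _ hxy => by simpa using hxy)] at h6
    have h7 : ∀ k ∈ T, (1:ℝ) ≤ ‖inner ℝ (h (-k)) (v 0)‖ ^ 2 := fun k hk => by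
      rw [hhv, sub_zero, Real.norm_eq_abs, sq_abs]
      have : b (-k) ≠ 0 := hT1 hk
      have h8 : 1 ≤ (b (-k)) ^ 2 := by
        have := sq_pos_of_ne_zero this
        omega
      exact_mod_cast h8
    have h8 := Finset.card_nsmul_le_sum T _ 1 h7
    rw [hT2, nsmul_eq_mul, mul_one] at h8
    push_cast at h8
    linarith
  -- the second vector
  set e : ℤ → H := fun m => v m - h m with he
  have hee : ∀ l m, inner ℝ (e l) (e m) =
      ((a (l - m) - b (m - l) - b (l - m) + c (l - m) : ℤ) : ℝ) := fun l m => by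
    simp only [he]
    rw [inner_sub_left, inner_sub_right, inner_sub_right, hv, hhh, hhv, real_inner_comm, hhv]
    push_cast
    ring
  have hee1 : ∀ m, inner ℝ (e m) (e m) = (1:ℝ) := fun m => by
    rw [hee, sub_self, h0, hb0, hc0]
    norm_num
  have hhe : ∀ l m, inner ℝ (h l) (e m) = ((b (l - m) - c (l - m) : ℤ) : ℝ) := fun l m => by
    simp only [he]
    rw [inner_sub_right, hhv, hhh]
    push_cast
    ring
  have hn1 : ∀ m, ‖e m‖ ^ 2 = 1 := fun m => by rw [← real_inner_self_eq_norm_sq, hee1]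
  have hn2 : ∀ m, ‖h m‖ ^ 2 = 1 := fun m => by rw [← real_inner_self_eq_norm_sq, hnh1]
  have hper : ∀ m, h (m + 2 * L) = h m := fun m => by
    rw [two_mul, ← add_assoc, hshift L hL, hshift L hL, smul_smul, ← sq, hcsq L hL, one_smul]
  have hbc : ∀ l, b l = c l := by
    intro l
    by_contra hne
    have hd : b l - c l ≠ 0 := sub_ne_zero.2 hne
    have hd1 : ((b l - c l : ℤ) : ℝ) ^ 2 = 1 := by
      have h2 := hhe l 0
      rw [sub_zero] at h2
      have h3 := abs_int_le h2 (hn2 l) (hn1 0)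
      rw [mul_one] at h3
      exact sq_one_of h3 hd
    have h2 : ∀ m, h (m + l) = ((b l - c l : ℤ) : ℝ) • e m := fun m => by
      refine eq_of_inner hd1 (hnh1 _) (hee1 _) ?_
      rw [hhe]
      have : m + l - m = l := by ring
      rw [this]
    have h3 : e (2 * L) = e 0 := by
      have h4 := h2 (2 * L)
      have h5 := h2 0
      have h6 : h (2 * L + l) = h (0 + l) := by
        have := hper (0 + l)
        rw [← this]
        congr 1
        ring
      rw [h4, h5] at h6
      have hne0 : ((b l - c l : ℤ) : ℝ) ≠ 0 := by exact_mod_cast hd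
      exact smul_right_injective H hne0 h6
    have h4 : h (2 * L) = h 0 := by
      have := hper 0
      rwa [zero_add] at this
    have h5 : v (2 * L) = v 0 := by
      simp only [he] at h3
      rw [h4] at h3
      exact sub_left_injective h3
    have h6 := hv (2 * L) 0
    rw [h5, hv, sub_self, h0, sub_zero] at h6
    have h7 : a (2 * L) = 2 := by exact_mod_cast h6.symm
    have h8 := h1 (2 * L) (by omega)
    rw [h7] at h8
    norm_num at h8
  have hac : ∀ l, l ≠ 0 → a l = c l := by
    intro l hl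
    by_contra hne
    have hd : a l - c l ≠ 0 := sub_ne_zero.2 hne
    have hee' : ∀ m, inner ℝ (e (m + l)) (e m) = ((a l - c l : ℤ) : ℝ) := fun m => by
      rw [hee, hbc, hbc]
      have e1 : m + l - m = l := by ring
      have e2 : m - (m + l) = -l := by ring
      rw [e1, e2, hceven]
      push_cast
      ring
    have hd1 : ((a l - c l : ℤ) : ℝ) ^ 2 = 1 := by
      have h3 := abs_int_le (hee' 0) (hn1 _) (hn1 0)
      rw [mul_one] at h3
      exact sq_one_of h3 hd
    have h2 : ∀ m, e (m + l) = ((a l - c l : ℤ) : ℝ) • e m := fun m =>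
      eq_of_inner hd1 (hee1 _) (hee1 _) (hee' m)
    have hpe : ∀ m, e (m + 2 * l) = e m := fun m => by
      rw [two_mul, ← add_assoc, h2, h2, smul_smul, ← sq, hd1, one_smul]
    have hPe : ∀ (j : ℤ) (m : ℤ), e (m + j * (2 * l)) = e m := by
      intro j
      induction j with
      | zero => intro m; simp
      | succ j ih =>
        intro m
        have : m + ((j : ℤ) + 1) * (2 * l) = (m + j * (2 * l)) + 2 * l := by ring
        rw [this, hpe, ih]
      | pred j ih =>
        intro m
        have := hpe (m + (-(j : ℤ) - 1) * (2 * l))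
        rw [← this]
        have e3 : m + (-(j : ℤ) - 1) * (2 * l) + 2 * l = m + -(j : ℤ) * (2 * l) := by ring
        rw [e3, ih]
    have hPh : ∀ (j : ℤ) (m : ℤ), h (m + j * (2 * L)) = h m := by
      intro j
      induction j with
      | zero => intro m; simp
      | succ j ih =>
        intro m
        have : m + ((j : ℤ) + 1) * (2 * L) = (m + j * (2 * L)) + 2 * L := by ring
        rw [this, hper, ih]
      | pred j ih =>
        intro m
        have := hper (m + (-(j : ℤ) - 1) * (2 * L))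
        rw [← this]
        have e3 : m + (-(j : ℤ) - 1) * (2 * L) + 2 * L = m + -(j : ℤ) * (2 * L) := by ring
        rw [e3, ih]
    have h3 := hPe L 0
    have h4 := hPh l 0
    have e4 : 0 + l * (2 * L) = 0 + L * (2 * l) := by ring
    rw [e4] at h4
    have h5 : v (0 + L * (2 * l)) = v 0 := by
      simp only [he] at h3
      rw [h4] at h3
      exact sub_left_injective h3
    have h6 := hv (0 + L * (2 * l)) 0
    rw [h5, hv, sub_self, h0, sub_zero, zero_add] at h6
    have h7 : a (L * (2 * l)) = 2 := by exact_mod_cast h6.symm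
    have h8 := h1 (L * (2 * l)) (mul_ne_zero hL0 (mul_ne_zero two_ne_zero hl))
    rw [h7] at h8
    norm_num at h8
  -- the subgroup
  have hex : ∃ n : ℕ, 0 < n ∧ c n ≠ 0 := by
    refine ⟨L.natAbs, Int.natAbs_pos.2 hL0, ?_⟩
    rcases Int.natAbs_eq L with h2 | h2
    · rw [← h2]; exact hL
    · have : ((L.natAbs : ℕ) : ℤ) = -L := by omega
      rw [this, hceven]
      exact hL
  set N := Nat.find hex with hN
  have hNs := Nat.find_spec hex
  have hNm := fun m (hm : m < N) => Nat.find_min hex hm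
  rw [← hN] at hNs
  refine ⟨N, by exact_mod_cast hNs.1, c N, ?_, ?_⟩
  · have h2 := hcsq N hNs.2
    have h3 : (c N) ^ 2 = 1 := by exact_mod_cast h2
    rw [sq] at h3
    exact mul_self_eq_one_iff.1 h3
  · intro k hk
    rw [hac k hk]
    have hpow : ∀ (j : ℤ) (m : ℤ), h (m + j * N) = ((c N : ℝ) ^ j.natAbs) • h m := by
      intro j
      induction j with
      | zero => intro m; simp
      | succ j ih =>
        intro m
        have e1 : m + ((j : ℤ) + 1) * N = (m + j * N) + N := by ring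
        have e2 : ((j : ℤ) + 1).natAbs = j + 1 := by omega
        rw [e1, hshift N hNs.2, ih, smul_smul, e2, pow_succ, mul_comm, Int.natAbs_natCast]
      | pred j ih =>
        intro m
        have h2 := hshift N hNs.2 (m + (-(j : ℤ) - 1) * N)
        have e3 : m + (-(j : ℤ) - 1) * N + N = m + -(j : ℤ) * N := by ring
        rw [e3, ih] at h2
        have e2 : (-(j : ℤ) - 1).natAbs = j + 1 := by omega
        have e4 : (-(j : ℤ)).natAbs = j := by omega
        rw [e4] at h2
        rw [e2]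
        calc h (m + (-(j : ℤ) - 1) * N) = ((c N : ℝ) ^ 2) • h (m + (-(j : ℤ) - 1) * N) := by
              rw [hcsq N hNs.2, one_smul]
          _ = (c N : ℝ) • ((c N : ℝ) • h (m + (-(j : ℤ) - 1) * N)) := by rw [sq, mul_smul]
          _ = (c N : ℝ) • ((c N : ℝ) ^ j • h m) := by rw [h2]
          _ = (c N : ℝ) ^ (j + 1) • h m := by rw [smul_smul, pow_succ']
    have hdm : k = k % N + (k / N) * N := by
      have := Int.emod_add_mul_ediv k N
      linarith [mul_comm (k / (N:ℤ)) (N:ℤ)]
    have hck : (c k : ℝ) = (c N : ℝ) ^ (k / N).natAbs * c (k % N) := by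
      have h2 := hhh k 0
      have h3 : h k = ((c N : ℝ) ^ (k / N).natAbs) • h (k % N) := by
        rw [← hpow, ← hdm]
      rw [h3, inner_smul_left, hhh, sub_zero, sub_zero] at h2
      simpa using h2.symm
    have hNpos : (0:ℤ) < N := by exact_mod_cast hNs.1
    by_cases hdvd : (N : ℤ) ∣ k
    · rw [if_pos hdvd]
      have h2 : k % N = 0 := Int.emod_eq_zero_of_dvd hdvd
      rw [h2, hc0] at hck
      push_cast at hck
      rw [mul_one] at hck
      exact_mod_cast hck
    · rw [if_neg hdvd]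
      have h2 : 0 < k % N := by
        have h3 := Int.emod_nonneg k hNpos.ne'
        have h4 : k % N ≠ 0 := fun h => hdvd (Int.dvd_of_emod_eq_zero h)
        omega
      have h3 := Int.emod_lt_of_pos k hNpos
      have h4 := hNm (k % N).toNat (by omega)
      push Not at h4
      have h5 := h4 (by omega)
      rw [Int.toNat_of_nonneg h2.le] at h5
      rw [h5] at hck
      push_cast at hck
      rw [mul_zero] at hck
      exact_mod_cast hck

end

end

end Pool.Agent.T2h85.RR
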