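import Pool.Agent.T2h85.RR.Cls

/-!
# Stationary sequences of roots: finite support
-/

namespace Pool.Agent.T2h85.RR

open Filter Topology

noncomputable section

section

variable {H : Type} [NormedAddCommGroup H] [InnerProductSpace ℝ H] [CompleteSpace H]
  {v : ℤ → H} {a : ℤ → ℤ}

/-- the partial sums -/
def ps (v : ℤ → H) (ε : ℝ) (N : ℤ) (l : ℤ) (n : ℕ) : H :=
  ∑ i ∈ Finset.range n, ε ^ i • v (l + i * N)

omit [CompleteSpace H] in
lemma ps_succ (v : ℤ → H) (ε : ℝ) (N : ℤ) (l : ℤ) (n : ℕ) :
    ps v ε N l (n + 1) = ps v ε N l n + ε ^ n • v (l + n * N) := by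
  unfold ps
  rw [Finset.sum_range_succ]

omit [CompleteSpace H] in
lemma inner_ps (hv : ∀ k l, inner ℝ (v k) (v l) = (a (k - l) : ℝ)) (ε : ℝ) (N l m : ℤ) (n : ℕ) :
    inner ℝ (ps v ε N l n) (v m) = ∑ i ∈ Finset.range n, ε ^ i * (a (l + i * N - m) : ℝ) := by
  unfold ps
  rw [sum_inner]
  refine Finset.sum_congr rfl fun i _ => ?_
  rw [inner_smul_left, hv]
  simp

omit [CompleteSpace H] in
/-- the part of the classification with finite support -/
theorem finite_aux (hv : ∀ k l, inner ℝ (v k) (v l) = (a (k - l) : ℝ)) (h0 : a 0 = 2)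
    {N : ℤ} (hN : 0 < N) (hsupp : ∀ k, N < |k| → a k = 0) {ε : ℤ} (hε : ε = 1 ∨ ε = -1)
    (haN : a N = -ε) :
    (∀ l n, 1 ≤ n → ‖ps v ε N l n‖ ^ 2 = 2) ∧
    ∀ r, 0 < r → r < N → ∃ D : ℤ, D = a r + ε * a (r - N) ∧
      (∀ n : ℕ, inner ℝ (ps v ε N r (n + 1)) (ps v ε N 0 (n + 1)) = (a r : ℝ) + n * D) ∧
      (∀ n m : ℕ, m ≤ n → inner ℝ (ps v ε N r n) (ps v ε N 0 m) =
        (inner ℝ (ps v ε N r m) (ps v ε N 0 m) : ℝ)) ∧
      (∀ n m : ℕ, 1 ≤ n → n < m → inner ℝ (ps v ε N r n) (ps v ε N 0 m) =
        (inner ℝ (ps v ε N r n) (ps v ε N 0 n) : ℝ) + ε * a (r - N)) := by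
  have heven := a_even hv
  have hε2 : (ε : ℝ) ^ 2 = 1 := by rcases hε with h | h <;> rw [h] <;> norm_num
  have hεn : ∀ n : ℕ, (ε : ℝ) ^ n * (ε : ℝ) ^ n = 1 := fun n => by
    rw [← mul_pow, ← sq, hε2, one_pow]
  have hz : ∀ k, N < k → a k = 0 := fun k hk => hsupp k (lt_of_lt_of_le hk (le_abs_self k))
  have hz' : ∀ k, k < -N → a k = 0 := fun k hk => hsupp k (by
    have := neg_le_abs k
    omega)
  have hvn : ∀ k, inner ℝ (v k) (v k) = (2:ℝ) := fun k => by
    rw [hv, sub_self, h0]
    norm_num
  constructor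
  · intro l n hn
    induction n, hn using Nat.le_induction with
    | base =>
      rw [← real_inner_self_eq_norm_sq]
      have : ps v ε N l 1 = v l := by
        unfold ps
        simp
      rw [this]
      exact hvn l
    | succ n hn ih =>
      rw [← real_inner_self_eq_norm_sq] at ih ⊢
      have h1 : inner ℝ (ps v ε N l n) (v (l + n * N)) = (ε : ℝ) ^ (n - 1) * (a N : ℝ) := by
        rw [inner_ps hv, Finset.sum_eq_single_of_mem (n - 1) (Finset.mem_range.2 (by omega))]
        · have : l + ((n - 1 : ℕ) : ℤ) * N - (l + n * N) = -N := by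
            have h2 : ((n - 1 : ℕ) : ℤ) = (n : ℤ) - 1 := by omega
            rw [h2]
            ring
          rw [this, heven]
        · intro i hi hne
          have h2 : i < n - 1 := by
            have := Finset.mem_range.1 hi
            omega
          rw [hz', Int.cast_zero, mul_zero]
          have h3 : (i : ℤ) + 2 ≤ n := by omega
          nlinarith
      have h1' : inner ℝ (v (l + n * N)) (ps v ε N l n) = (ε : ℝ) ^ (n - 1) * (a N : ℝ) := by
        rw [real_inner_comm, h1]
      rw [ps_succ, inner_add_left, inner_add_right, inner_add_right, ih, inner_smul_left,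
        inner_smul_right, inner_smul_left, inner_smul_right, h1, h1', hvn, haN]
      simp only [conj_trivial]
      have h4 : (ε : ℝ) ^ n = ε * (ε : ℝ) ^ (n - 1) := by
        rw [← pow_succ']
        congr 1
        omega
      have h5 := hεn (n - 1)
      push_cast
      rw [h4]
      ring
  · intro r hr0 hrN
    have hX1 : ∀ n m : ℕ, n < m → inner ℝ (ps v ε N r n) (v (0 + m * N)) = (0:ℝ) := by
      intro n m hnm
      rw [inner_ps hv]
      refine Finset.sum_eq_zero fun i hi => ?_
      have h2 := Finset.mem_range.1 hi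
      have h3 : (i : ℤ) + 2 ≤ m := by omega
      rw [hz', Int.cast_zero, mul_zero]
      nlinarith
    have hX2 : ∀ n : ℕ, 1 ≤ n → inner ℝ (ps v ε N r n) (v (0 + n * N)) =
        (ε : ℝ) ^ (n - 1) * (a (r - N) : ℝ) := by
      intro n hn
      rw [inner_ps hv, Finset.sum_eq_single_of_mem (n - 1) (Finset.mem_range.2 (by omega))]
      · have : r + ((n - 1 : ℕ) : ℤ) * N - (0 + n * N) = r - N := by
          have h2 : ((n - 1 : ℕ) : ℤ) = (n : ℤ) - 1 := by omega
          rw [h2]
          ring
        rw [this]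
      · intro i hi hne
        have h2 : i < n - 1 := by
          have := Finset.mem_range.1 hi
          omega
        rw [hz', Int.cast_zero, mul_zero]
        have h3 : (i : ℤ) + 2 ≤ n := by omega
        nlinarith
    have hY : ∀ n m : ℕ, m ≤ n → inner ℝ (v (r + n * N)) (ps v ε N 0 m) = (0:ℝ) := by
      intro n m hmn
      rw [real_inner_comm, inner_ps hv]
      refine Finset.sum_eq_zero fun i hi => ?_
      have h2 := Finset.mem_range.1 hi
      have h3 : (i : ℤ) + 1 ≤ n := by omega
      rw [hz', Int.cast_zero, mul_zero]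
      nlinarith
    have hpow : ∀ n : ℕ, 1 ≤ n → (ε : ℝ) ^ n * (ε : ℝ) ^ (n - 1) = ε := by
      intro n hn
      have h4 : (ε : ℝ) ^ n = ε * (ε : ℝ) ^ (n - 1) := by
        rw [← pow_succ']
        congr 1
        omega
      rw [h4, mul_assoc, hεn, mul_one]
    refine ⟨a r + ε * a (r - N), rfl, ?_, ?_, ?_⟩
    · intro n
      induction n with
      | zero =>
        have e1 : ps v ε N r (0 + 1) = v r := by
          unfold ps
          simp
        have e2 : ps v ε N 0 (0 + 1) = v 0 := by
          unfold ps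
          simp
        rw [e1, e2, hv, sub_zero]
        simp
      | succ n ih =>
        rw [ps_succ v ε N r (n + 1), ps_succ v ε N 0 (n + 1), inner_add_left, inner_add_right,
          inner_add_right, ih, inner_smul_left, inner_smul_right, inner_smul_left,
          inner_smul_right, hY (n + 1) (n + 1) le_rfl, hX2 (n + 1) (by omega), hv]
        simp only [conj_trivial]
        have e1 : r + ((n + 1 : ℕ) : ℤ) * N - (0 + ((n + 1 : ℕ) : ℤ) * N) = r := by ring
        rw [e1]
        have e2 := hpow (n + 1) (by omega)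
        have e3 := hεn (n + 1)
        have e4 : n + 1 - 1 = n := by omega
        rw [e4] at e2 ⊢
        push_cast
        linear_combination (a (r - N) : ℝ) * e2 + (a r : ℝ) * e3
    · intro n m hmn
      induction n, hmn using Nat.le_induction with
      | base => rfl
      | succ n hn ih =>
        rw [ps_succ, inner_add_left, inner_smul_left, hY n m hn, mul_zero, add_zero, ih]
    · intro n m hn hnm
      induction m, hnm using Nat.le_induction with
      | base =>
        rw [ps_succ v ε N 0 n, inner_add_right, inner_smul_right, hX2 n hn, ← mul_assoc,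
          hpow n hn]
      | succ m hm ih =>
        rw [ps_succ v ε N 0 m, inner_add_right, inner_smul_right, hX1 n m hm, mul_zero, add_zero,
          ih]

/-- the case of finite support -/
theorem classify_finite (hv : ∀ k l, inner ℝ (v k) (v l) = (a (k - l) : ℝ)) (h0 : a 0 = 2)
    (h1 : ∀ k, k ≠ 0 → |a k| ≤ 1) (hfin : {k : ℤ | k ≠ 0 ∧ a k ≠ 0}.Finite)
    (hne : ∃ k, k ≠ 0 ∧ a k ≠ 0) :
    ∃ N : ℤ, 0 < N ∧ ∃ ε : ℤ, (ε = 1 ∨ ε = -1) ∧
      ∀ k, k ≠ 0 → a k = if k = N ∨ k = -N then -ε else 0 := by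
  classical
  have heven := a_even hv
  -- the largest index
  obtain ⟨k0, hk0, hk0'⟩ := hne
  have hSne : (hfin.toFinset).Nonempty := ⟨k0, hfin.mem_toFinset.2 ⟨hk0, hk0'⟩⟩
  obtain ⟨M, hM, hMmax⟩ := Finset.exists_max_image hfin.toFinset (fun k => |k|) hSne
  have hM' := hfin.mem_toFinset.1 hM
  set N : ℤ := |M| with hNdef
  have hN : 0 < N := abs_pos.2 hM'.1
  have haN0 : a N ≠ 0 := by
    rcases abs_choice M with h | h
    · rw [hNdef, h]; exact hM'.2
    · rw [hNdef, h, heven]; exact hM'.2
  have hsupp : ∀ k, N < |k| → a k = 0 := by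
    intro k hk
    by_contra hne
    have hk1 : k ≠ 0 := by
      rintro rfl
      simp at hk
      omega
    have := hMmax k (hfin.mem_toFinset.2 ⟨hk1, hne⟩)
    omega
  have hε : -a N = 1 ∨ -a N = -1 := by
    have h2 := abs_le.1 (h1 N hN.ne')
    omega
  refine ⟨N, hN, -a N, hε, ?_⟩
  obtain ⟨hn, hr⟩ := finite_aux hv h0 hN hsupp hε (by ring)
  set ε : ℤ := -a N with hεdef
  -- intermediate values vanish
  have hmid : ∀ r, 0 < r → r < N → a r = 0 := by
    intro r hr0 hrN
    obtain ⟨D, hD, h3, h4, h5⟩ := hr r hr0 hrN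
    have hD0 : D = 0 := by
      by_contra hDne
      have hb : ∀ n : ℕ, |(a r : ℝ) + n * D| ≤ 2 := by
        intro n
        have h6 := abs_real_inner_le_norm (ps v ε N r (n + 1)) (ps v ε N 0 (n + 1))
        rw [h3 n] at h6
        have h7 := hn r (n + 1) (by omega)
        have h8 := hn 0 (n + 1) (by omega)
        have h9 : ‖ps v ε N r (n + 1)‖ * ‖ps v ε N 0 (n + 1)‖ ≤ 2 := by
          nlinarith [sq_nonneg (‖ps v ε N r (n + 1)‖ - ‖ps v ε N 0 (n + 1)‖)]
        exact h6.trans h9
      have h6 := hb 4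
      have h7 : |a r + 4 * D| ≤ 2 := by exact_mod_cast h6
      have h8 := abs_le.1 h7
      have h9 := abs_le.1 (h1 r hr0.ne')
      omega
    have hεr : ε * a (r - N) = -a r := by
      rw [hD] at hD0
      linarith
    -- weak limits
    set U : Ultrafilter ℕ := Ultrafilter.of atTop with hU
    have hUle : (U : Filter ℕ) ≤ atTop := Ultrafilter.of_le _
    have hnb : ∀ l n, ‖ps v ε N l n‖ ≤ 2 := by
      intro l n
      rcases Nat.eq_zero_or_pos n with h | h
      · rw [h]
        unfold ps
        simp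
      · have := hn l n h
        nlinarith [norm_nonneg (ps v ε N l n)]
    obtain ⟨x, hx⟩ := weak_lim U (fun n => ps v ε N r n) 2 (hnb r)
    obtain ⟨y, hy⟩ := weak_lim U (fun n => ps v ε N 0 n) 2 (hnb 0)
    have hq : ∀ m : ℕ, 1 ≤ m → (inner ℝ (ps v ε N r m) (ps v ε N 0 m) : ℝ) = a r := by
      intro m hm
      have h6 := h3 (m - 1)
      have e : m - 1 + 1 = m := by omega
      rw [e, hD0] at h6
      rw [h6]
      push_cast
      ring
    have h6 : ∀ m : ℕ, 1 ≤ m → inner ℝ x (ps v ε N 0 m) = (a r : ℝ) := by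
      intro m hm
      refine tendsto_nhds_unique (hx _) (tendsto_const_nhds.congr' ?_)
      filter_upwards [hUle (eventually_ge_atTop m)] with n hnm
      rw [h4 n m hnm, hq m hm]
    have h7 : ∀ n : ℕ, 1 ≤ n → inner ℝ (ps v ε N r n) y = (0 : ℝ) := by
      intro n hn1
      rw [real_inner_comm]
      refine tendsto_nhds_unique (hy _) (tendsto_const_nhds.congr' ?_)
      filter_upwards [hUle (eventually_gt_atTop n)] with m hnm
      rw [real_inner_comm, h5 n m hn1 hnm, hq n hn1]
      have : (ε : ℝ) * a (r - N) = -a r := by exact_mod_cast hεr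
      linarith
    have h8 : inner ℝ x y = (0 : ℝ) := by
      refine tendsto_nhds_unique (hx y) (tendsto_const_nhds.congr' ?_)
      filter_upwards [hUle (eventually_ge_atTop 1)] with n hn1
      rw [h7 n hn1]
    have h9 : inner ℝ y x = (a r : ℝ) := by
      refine tendsto_nhds_unique (hy x) (tendsto_const_nhds.congr' ?_)
      filter_upwards [hUle (eventually_ge_atTop 1)] with n hn1
      rw [real_inner_comm, h6 n hn1]
    rw [real_inner_comm, h8] at h9
    exact_mod_cast h9.symm
  intro k hk
  by_cases h : k = N ∨ k = -N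
  · rw [if_pos h]
    rcases h with h | h
    · rw [h, hεdef]; ring
    · rw [h, heven, hεdef]; ring
  · rw [if_neg h]
    push Not at h
    rcases lt_trichotomy (|k|) N with h2 | h2 | h2
    · rcases abs_choice k with h3 | h3
      · have := hmid k (by have := abs_pos.2 hk; omega) (by omega)
        exact this
      · have := hmid (-k) (by have := abs_pos.2 hk; omega) (by omega)
        rwa [heven] at this
    · rcases abs_choice k with h3 | h3
      · exact absurd (by omega) h.1
      · exact absurd (by omega) h.2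
    · exact hsupp k h2

/-- **classification** of the stationary sequences of roots -/
theorem classify (hv : ∀ k l, inner ℝ (v k) (v l) = (a (k - l) : ℝ)) (h0 : a 0 = 2) :
    (∃ N : ℤ, 0 < N ∧ |a N| = 2) ∨ (∀ k, k ≠ 0 → a k = 0) ∨
    (∃ N : ℤ, 0 < N ∧ ∃ ε : ℤ, (ε = 1 ∨ ε = -1) ∧
      ∀ k, k ≠ 0 → a k = if k = N ∨ k = -N then -ε else 0) ∨
    (∃ N : ℤ, 0 < N ∧ ∃ ε : ℤ, (ε = 1 ∨ ε = -1) ∧
      ∀ k, k ≠ 0 → a k = if N ∣ k then ε ^ (k / N).natAbs else 0) := by
  have heven := a_even hv
  by_cases hcase : ∃ N : ℤ, 0 < N ∧ |a N| = 2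
  · exact Or.inl hcase
  · right
    push Not at hcase
    have h2 : ∀ k, |a k| ≤ 2 := by
      intro k
      have h3 : ‖v k‖ ^ 2 = 2 := by
        rw [← real_inner_self_eq_norm_sq, hv, sub_self, h0]
        norm_num
      have h4 : ‖v 0‖ ^ 2 = 2 := by
        rw [← real_inner_self_eq_norm_sq, hv, sub_self, h0]
        norm_num
      have h5 := hv k 0
      rw [sub_zero] at h5
      have h6 := abs_int_le h5 h3 h4
      have h7 : (a k) ^ 2 ≤ 4 := by
        have : ((a k : ℤ) : ℝ) ^ 2 ≤ 4 := by linarith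
        exact_mod_cast this
      exact abs_le.2 ⟨by nlinarith, by nlinarith⟩
    have h1 : ∀ k, k ≠ 0 → |a k| ≤ 1 := by
      intro k hk
      have h3 : |a k| ≠ 2 := by
        rcases lt_or_gt_of_ne hk with h | h
        · rw [← heven]
          exact hcase (-k) (by omega)
        · exact hcase k h
      have := h2 k
      omega
    by_cases hz : ∃ k, k ≠ 0 ∧ a k ≠ 0
    · right
      by_cases hfin : {k : ℤ | k ≠ 0 ∧ a k ≠ 0}.Finite
      · exact Or.inl (classify_finite hv h0 h1 hfin hz)
      · exact Or.inr (classify_infinite hv h0 h1 hfin)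
    · left
      push Not at hz
      exact hz

end

end

end Pool.Agent.T2h85.RR
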