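import Mathlib

/-!
# Angles at the primes of a number field: the L-functions and the laws
-/

set_option autoImplicit false

namespace Pool.Agent.T2h85.Angles

open NumberField IsDedekindDomain Filter Topology

section

variable {K : Type} [Field K] [NumberField K]

/-- The Euler product `L(Sym^m, s) = ∏_v ∏_{0 ≤ j ≤ m} (1 - e^{i (m - 2j) θ_v} q_v^{-s})⁻¹`. -/
noncomputable def LSym (θ : HeightOneSpectrum (𝓞 K) → ℝ) (m : ℕ) (s : ℂ) : ℂ :=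
  ∏' v : HeightOneSpectrum (𝓞 K), ∏ j : Fin (m + 1),
    (1 - Complex.exp (((m : ℂ) - 2 * (j : ℕ)) * θ v * Complex.I) *
      (Ideal.absNorm v.asIdeal : ℂ) ^ (-s))⁻¹

/-- `Λ` is a meromorphic continuation of `L(Sym^m, s)` to a neighbourhood of `1 + iτ`. -/
def IsContinuation (θ : HeightOneSpectrum (𝓞 K) → ℝ) (m : ℕ) (τ : ℝ) (Λ : ℂ → ℂ) : Prop :=
  MeromorphicAt Λ (1 + τ * Complex.I) ∧
    ∀ᶠ s in 𝓝 ((1 : ℂ) + τ * Complex.I), (1 : ℝ) < s.re → Λ s = LSym θ m s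

/-- The analytic law of the `θ_v`: `∑ f(cos θ_v) q_v^{-s} / ∑ q_v^{-s}` tends to `Ψ f` for `s → 1+`, for
all continuous `f`. -/
def AnalyticLaw (θ : HeightOneSpectrum (𝓞 K) → ℝ) (Ψ : (ℝ → ℝ) → ℝ) : Prop :=
  ∀ f : ℝ → ℝ, Continuous f → Tendsto (fun s : ℝ =>
    (∑' v, f (Real.cos (θ v)) * (Ideal.absNorm v.asIdeal : ℝ) ^ (-s)) /
      ∑' v : HeightOneSpectrum (𝓞 K), (Ideal.absNorm v.asIdeal : ℝ) ^ (-s)) (𝓝[>] 1) (𝓝 (Ψ f))

/-- The law of the `θ_v` for the natural density: the average of `f(cos θ_v)` over the primes `v` with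
`q_v ≤ N` tends to `Ψ f` for `N → ∞`, for all continuous `f`. -/
def NaturalLaw (θ : HeightOneSpectrum (𝓞 K) → ℝ) (Ψ : (ℝ → ℝ) → ℝ) : Prop :=
  ∀ f : ℝ → ℝ, Continuous f → Tendsto (fun N : ℕ =>
    (∑ᶠ v : {v : HeightOneSpectrum (𝓞 K) // Ideal.absNorm v.asIdeal ≤ N}, f (Real.cos (θ v.1))) /
      (Nat.card {v : HeightOneSpectrum (𝓞 K) // Ideal.absNorm v.asIdeal ≤ N} : ℝ)) atTop (𝓝 (Ψ f))

end

/-- The law with the density `(1 - ε cos (N t)) / π` on `[0, π]`. -/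
noncomputable def waveLaw (ε : ℝ) (N : ℕ) (f : ℝ → ℝ) : ℝ :=
  (1 / Real.pi) * ∫ t in (0:ℝ)..Real.pi, f (Real.cos t) * (1 - ε * Real.cos (N * t))

/-- The uniform law on the `N` points `e^{it}` with `e^{iNt} = 1` (for `κ = 0`) or `e^{iNt} = -1` (for `κ = 1`). -/
noncomputable def rootsLaw (κ N : ℕ) (f : ℝ → ℝ) : ℝ :=
  (1 / N) * ∑ j ∈ Finset.range N, f (Real.cos ((2 * j + κ) * Real.pi / N))

/-- The Sato-Tate law. -/
noncomputable def satoTate (f : ℝ → ℝ) : ℝ :=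
  (2 / Real.pi) * ∫ t in (0:ℝ)..Real.pi, f (Real.cos t) * Real.sin t ^ 2

/-- The `θ_v` have an analytic law with support in the points `j π / N`, `0 ≤ j ≤ N`, for some `N ≥ 1`. -/
def FiniteLaw {K : Type} [Field K] [NumberField K] (θ : HeightOneSpectrum (𝓞 K) → ℝ) : Prop :=
  ∃ N : ℕ, 0 < N ∧ ∃ w : ℕ → ℝ, (∀ j, 0 ≤ w j) ∧ ∑ j ∈ Finset.range (N + 1), w j = 1 ∧
    AnalyticLaw θ fun f => ∑ j ∈ Finset.range (N + 1), w j * f (Real.cos (j * Real.pi / N))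

end Pool.Agent.T2h85.Angles
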