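import Pool.Agent.T2h85.RR.Nat
import Pool.Agent.T2h85.RR.Defs

/-!
# From the means to the laws
-/

set_option autoImplicit false
set_option linter.unusedSectionVars false

namespace Pool.Agent.T2h85.Angles

open NumberField IsDedekindDomain Filter Topology
open Pool.Agent.T2h85.RR Pool.Agent.TH553.ST Pool.Agent.TH553.RS Pool.Agent.W540.BE
  Pool.Agent.H341R2

variable {K : Type} [Field K] [NumberField K] {θ : HeightOneSpectrum (𝓞 K) → ℝ}

theorem analytic_of {Ψ : (ℝ → ℝ) → ℝ} (h : QLaw θ Ψ) : AnalyticLaw θ Ψ := by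
  intro f hf
  have h1 := (h f hf).div (sysF K).one one_ne_zero
  rw [div_one] at h1
  have h2 : Tendsto (fun s : ℝ => s - 1) (𝓝[>] 1) (𝓝[>] 0) := by
    refine tendsto_nhdsWithin_iff.2 ⟨?_, ?_⟩
    · have h3 : Tendsto (fun s : ℝ => s - 1) (𝓝 1) (𝓝 (1 - 1)) :=
        (continuous_id.sub continuous_const).tendsto _
      rw [sub_self] at h3
      exact h3.mono_left nhdsWithin_le_nhds
    · filter_upwards [self_mem_nhdsWithin] with s hs
      exact Set.mem_Ioi.2 (sub_pos.2 (Set.mem_Ioi.1 hs))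
  refine (h1.comp h2).congr' ?_
  have h4 : ∀ᶠ s : ℝ in 𝓝[>] 1, 0 < lam (s - 1) :=
    h2.eventually (lam_tendsto.eventually_gt_atTop 0)
  filter_upwards [h4] with s hs
  have e : -(1 + (s - 1)) = -s := by ring
  simp only [Function.comp, Pi.div_apply, qt, EP, e, one_mul]
  rw [div_div_div_cancel_right₀ hs.ne']
  rfl

theorem natural_of {Ψ : (ℝ → ℝ) → ℝ}
    (h : ∀ f : ℝ → ℝ, Continuous f → Tendsto (mn fun v => f (Real.cos (θ v))) atTop (𝓝 (Ψ f))) :
    NaturalLaw θ Ψ := by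
  intro f hf
  refine (h f hf).congr fun N => ?_
  have hs : ∀ v, v ∈ upto K N ↔ Ideal.absNorm v.asIdeal ≤ N := fun v => mem_upto
  let e : {v : HeightOneSpectrum (𝓞 K) // Ideal.absNorm v.asIdeal ≤ N} ≃ (upto K N) :=
    Equiv.subtypeEquivRight fun v => (hs v).symm
  have hfin : Finite {v : HeightOneSpectrum (𝓞 K) // Ideal.absNorm v.asIdeal ≤ N} :=
    Finite.of_equiv _ e.symm
  unfold mn
  have h1 : (∑ᶠ v : {v : HeightOneSpectrum (𝓞 K) // Ideal.absNorm v.asIdeal ≤ N},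
      f (Real.cos (θ v.1))) = ∑ v ∈ upto K N, f (Real.cos (θ v)) := by
    rw [← Finset.sum_coe_sort, ← finsum_eq_sum_of_fintype, ← finsum_comp_equiv e]
    rfl
  have h2 : Nat.card {v : HeightOneSpectrum (𝓞 K) // Ideal.absNorm v.asIdeal ≤ N} =
      (upto K N).card := by
    rw [Nat.card_congr e, Nat.card_eq_fintype_card, Fintype.card_coe]
  rw [h1, h2, smul_eq_mul, div_eq_inv_mul]

theorem wave_satoTate : waveLaw 1 2 = satoTate := by
  funext f
  unfold waveLaw satoTate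
  have e : ∀ t : ℝ, f (Real.cos t) * (1 - 1 * Real.cos ((2:ℕ) * t)) =
      2 * (f (Real.cos t) * Real.sin t ^ 2) := by
    intro t
    have h1 := Real.cos_two_mul t
    have h2 := Real.sin_sq_add_cos_sq t
    push_cast
    rw [h1]
    linear_combination (2 * f (Real.cos t)) * (-h2)
  simp only [e]
  rw [intervalIntegral.integral_const_mul]
  ring

theorem fin_of (h : FinLaw θ) : FiniteLaw θ := by
  obtain ⟨N, h0, w, h1, h2, h3⟩ := h
  exact ⟨N, h0, w, h1, h2, analytic_of h3⟩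

theorem cont_of {m : ℕ} {τ : ℝ} {M : ℂ → ℂ} (h : IsContinuation θ m τ M) :
    Pool.Agent.T2h85.RR.IsCont θ m τ M := h

/-- the orders at `s = 1` and the moments -/
theorem moments {Λ : ℕ → ℂ → ℂ} (hΛ : ∀ m, 1 ≤ m → IsContinuation θ m 0 (Λ m)) :
    ∃ (o : ℕ → ℤ) (a : ℤ → ℤ), (∀ m, 1 ≤ m → meromorphicOrderAt (Λ m) 1 = o m) ∧ Mom θ a ∧
      a 1 = -o 1 ∧ a 2 = -o 2 - 1 ∧ ∀ m : ℕ, 1 ≤ m → a (m + 2) = -o (m + 2) + o m := by
  have hex : ∀ m : ℕ, ∃ o : ℤ, 1 ≤ m → (meromorphicOrderAt (Λ m) 1 = o ∧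
      Tendsto (qt (nm K) fun v => chiR m (θ v)) (𝓝[>] 0) (𝓝 (-(o : ℝ)))) := by
    intro m
    by_cases hm : 1 ≤ m
    · obtain ⟨o, h1, h2⟩ := order_mean_zero (cont_of (hΛ m hm))
      exact ⟨o, fun _ => ⟨h1, h2⟩⟩
    · exact ⟨0, fun h => absurd h hm⟩
  choose o ho using hex
  obtain ⟨a, ha, ha1, ha2, ha3⟩ := exists_mom fun m hm => (ho m hm).2
  exact ⟨o, a, fun m hm => (ho m hm).1, ha, ha1, ha2, ha3⟩

end Pool.Agent.T2h85.Angles
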