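import Mathlib

/-!
# Functionals on the continuous functions on `[-1, 1]` and their Chebyshev moments
-/

namespace Pool.Agent.T2h85.RR

open Filter Topology MeasureTheory Set Polynomial

noncomputable section

/-- a normalised bounded functional on the continuous functions -/
structure PNF (Φ : (ℝ → ℝ) → ℝ) : Prop where
  add : ∀ f g : ℝ → ℝ, Continuous f → Continuous g → Φ (fun t => f t + g t) = Φ f + Φ g
  smul : ∀ (c : ℝ) (f : ℝ → ℝ), Continuous f → Φ (fun t => c * f t) = c * Φ f
  bound : ∀ (C : ℝ) (f : ℝ → ℝ), Continuous f → (∀ t ∈ Icc (-1:ℝ) 1, |f t| ≤ C) → |Φ f| ≤ C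

lemma PNF.sub {Φ : (ℝ → ℝ) → ℝ} (h : PNF Φ) {f g : ℝ → ℝ} (hf : Continuous f)
    (hg : Continuous g) : Φ (fun t => f t - g t) = Φ f - Φ g := by
  have h1 := h.add f (fun t => (-1) * g t) hf (by fun_prop)
  rw [h.smul (-1) g hg] at h1
  have e : (fun t => f t - g t) = fun t => f t + (-1) * g t := by
    funext t
    ring
  rw [e, h1]
  ring

lemma PNF.sum {Φ : (ℝ → ℝ) → ℝ} (h : PNF Φ) {ι : Type} (s : Finset ι) (f : ι → ℝ → ℝ)
    (hf : ∀ i, Continuous (f i)) : Φ (fun t => ∑ i ∈ s, f i t) = ∑ i ∈ s, Φ (f i) := by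
  classical
  induction s using Finset.induction_on with
  | empty =>
    have h1 := h.smul 0 (fun _ => 0) continuous_const
    simpa using h1
  | insert i s hi ih =>
    simp only [Finset.sum_insert hi]
    rw [h.add (f i) (fun t => ∑ j ∈ s, f j t) (hf i) (continuous_finsetSum _ fun j _ => hf j), ih]

lemma PNF.poly_eq {Φ Ψ : (ℝ → ℝ) → ℝ} (h : PNF Φ) (h' : PNF Ψ)
    (hT : ∀ k : ℤ, Φ (fun t => (Chebyshev.T ℝ k).eval t) = Ψ fun t => (Chebyshev.T ℝ k).eval t)
    (p : ℝ[X]) : Φ (fun t => p.eval t) = Ψ fun t => p.eval t := by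
  have key : ∀ p : ℝ[X], ∀ k : ℤ, Φ (fun t => (p * Chebyshev.T ℝ k).eval t) =
      Ψ fun t => (p * Chebyshev.T ℝ k).eval t := by
    intro p
    induction p using Polynomial.induction_on with
    | C c =>
      intro k
      have e : (fun t => (C c * Chebyshev.T ℝ k).eval t) =
          fun t => c * (Chebyshev.T ℝ k).eval t := by
        funext t
        simp
      rw [e, h.smul c _ (Polynomial.continuous _), h'.smul c _ (Polynomial.continuous _), hT]
    | add p q hp hq =>
      intro k
      have e : (fun t => ((p + q) * Chebyshev.T ℝ k).eval t) =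
          fun t => (p * Chebyshev.T ℝ k).eval t + (q * Chebyshev.T ℝ k).eval t := by
        funext t
        rw [add_mul, eval_add]
      rw [e, h.add _ _ (Polynomial.continuous _) (Polynomial.continuous _),
        h'.add _ _ (Polynomial.continuous _) (Polynomial.continuous _), hp, hq]
    | monomial n c ih =>
      intro k
      have e : (fun t => (C c * X ^ (n + 1) * Chebyshev.T ℝ k).eval t) =
          fun t => (1 / 2) * ((C c * X ^ n * Chebyshev.T ℝ (k + 1)).eval t) +
            (1 / 2) * ((C c * X ^ n * Chebyshev.T ℝ (k - 1)).eval t) := by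
        funext t
        rw [Chebyshev.T_add_one]
        simp only [eval_mul, eval_C, eval_pow, eval_X, eval_sub, eval_ofNat]
        ring
      rw [e, h.add _ _ (by fun_prop) (by fun_prop), h'.add _ _ (by fun_prop) (by fun_prop),
        h.smul _ _ (by fun_prop), h.smul _ _ (by fun_prop), h'.smul _ _ (by fun_prop),
        h'.smul _ _ (by fun_prop), ih, ih]
  have h0 := key p 0
  simpa using h0

/-- functionals with the same Chebyshev moments are the same -/
theorem PNF.ext {Φ Ψ : (ℝ → ℝ) → ℝ} (h : PNF Φ) (h' : PNF Ψ)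
    (hT : ∀ k : ℤ, Φ (fun t => (Chebyshev.T ℝ k).eval t) = Ψ fun t => (Chebyshev.T ℝ k).eval t)
    {f : ℝ → ℝ} (hf : Continuous f) : Φ f = Ψ f := by
  by_contra hne
  have hpos : 0 < |Φ f - Ψ f| := abs_pos.2 (sub_ne_zero.2 hne)
  obtain ⟨p, hp⟩ := exists_polynomial_near_of_continuousOn (-1) 1 f hf.continuousOn
    (|Φ f - Ψ f| / 4) (by positivity)
  have hpc : Continuous fun t => p.eval t := Polynomial.continuous p
  have h1 : |Φ (fun t => p.eval t - f t)| ≤ |Φ f - Ψ f| / 4 :=
    h.bound _ _ (hpc.sub hf) fun t ht => (hp t ht).le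
  have h2 : |Ψ (fun t => p.eval t - f t)| ≤ |Φ f - Ψ f| / 4 :=
    h'.bound _ _ (hpc.sub hf) fun t ht => (hp t ht).le
  rw [h.sub hpc hf] at h1
  rw [h'.sub hpc hf, ← h.poly_eq h' hT p] at h2
  have h3 : |Φ f - Ψ f| ≤ |Φ f - Ψ f| / 4 + |Φ f - Ψ f| / 4 := by
    have e : Φ f - Ψ f = -(Φ (fun t => p.eval t) - Φ f) + (Φ (fun t => p.eval t) - Ψ f) := by ring
    calc |Φ f - Ψ f| = |-(Φ (fun t => p.eval t) - Φ f) + (Φ (fun t => p.eval t) - Ψ f)| := by
          rw [← e]
      _ ≤ |-(Φ (fun t => p.eval t) - Φ f)| + |Φ (fun t => p.eval t) - Ψ f| := abs_add_le _ _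
      _ ≤ _ := by
          rw [abs_neg]
          exact add_le_add h1 h2
  linarith

/-- the law with the density `(1 - ε cos (N t)) / π` on `[0, π]` -/
def wave (ε : ℝ) (N : ℕ) (f : ℝ → ℝ) : ℝ :=
  (1 / Real.pi) * ∫ t in (0:ℝ)..Real.pi, f (Real.cos t) * (1 - ε * Real.cos (N * t))

/-- the law of a point of a finite coset of roots of unity -/
def pts (κ : ℝ) (N : ℕ) (f : ℝ → ℝ) : ℝ :=
  (1 / N) * ∑ j ∈ Finset.range N, f (Real.cos ((2 * j + κ) * Real.pi / N))

lemma wave_int {f : ℝ → ℝ} (hf : Continuous f) (ε : ℝ) (N : ℕ) :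
    IntervalIntegrable (fun t => f (Real.cos t) * (1 - ε * Real.cos (N * t))) volume 0 Real.pi := by
  apply Continuous.intervalIntegrable
  fun_prop

lemma int_cos (k : ℤ) (hk : k ≠ 0) : ∫ t in (0:ℝ)..Real.pi, Real.cos (k * t) = 0 := by
  have hk' : (k : ℝ) ≠ 0 := by exact_mod_cast hk
  rw [intervalIntegral.integral_comp_mul_left (fun t => Real.cos t) hk', integral_cos]
  rw [mul_zero, Real.sin_zero, Real.sin_int_mul_pi]
  simp

lemma cos_mul_cos (x y : ℝ) :
    Real.cos x * Real.cos y = (Real.cos (x + y) + Real.cos (x - y)) / 2 := by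
  rw [Real.cos_add, Real.cos_sub]
  ring

lemma int_one_sub (ε : ℝ) (N : ℕ) (hN : ε = 0 ∨ N ≠ 0) :
    ∫ t in (0:ℝ)..Real.pi, (1 - ε * Real.cos (N * t)) = Real.pi := by
  rw [intervalIntegral.integral_sub (by simp) (by
    apply Continuous.intervalIntegrable; fun_prop), intervalIntegral.integral_const_mul]
  rcases hN with h | h
  · rw [h]
    simp
  · have := int_cos N (by exact_mod_cast h)
    push_cast at this
    rw [this]
    simp

lemma wave_pnf (ε : ℝ) (hε : |ε| ≤ 1) (N : ℕ) (hN : ε = 0 ∨ N ≠ 0) : PNF (wave ε N) := by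
  have hpi := Real.pi_pos
  constructor
  · intro f g hf hg
    unfold wave
    rw [← mul_add, ← intervalIntegral.integral_add (wave_int hf ε N) (wave_int hg ε N)]
    congr 1
    refine intervalIntegral.integral_congr fun t _ => ?_
    ring
  · intro c f hf
    unfold wave
    have h1 : ∫ t in (0:ℝ)..Real.pi, c * f (Real.cos t) * (1 - ε * Real.cos (N * t)) =
        c * ∫ t in (0:ℝ)..Real.pi, f (Real.cos t) * (1 - ε * Real.cos (N * t)) := by
      rw [← intervalIntegral.integral_const_mul]
      refine intervalIntegral.integral_congr fun t _ => ?_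
      ring
    rw [h1]
    ring
  · intro C f hf hC
    unfold wave
    have hw : ∀ t : ℝ, 0 ≤ 1 - ε * Real.cos (N * t) := by
      intro t
      have h1 : |ε * Real.cos (N * t)| ≤ 1 := by
        rw [abs_mul]
        exact mul_le_one₀ hε (abs_nonneg _) (Real.abs_cos_le_one _)
      have := le_abs_self (ε * Real.cos (N * t))
      linarith
    have h1 : |∫ t in (0:ℝ)..Real.pi, f (Real.cos t) * (1 - ε * Real.cos (N * t))| ≤
        ∫ t in (0:ℝ)..Real.pi, C * (1 - ε * Real.cos (N * t)) := by
      have h2 := intervalIntegral.norm_integral_le_of_norm_le hpi.le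
        (f := fun t => f (Real.cos t) * (1 - ε * Real.cos (N * t)))
        (g := fun t => C * (1 - ε * Real.cos (N * t))) (μ := volume)
        (Eventually.of_forall fun t _ => by
          rw [Real.norm_eq_abs, abs_mul, abs_of_nonneg (hw t)]
          exact mul_le_mul_of_nonneg_right (hC _ (Real.cos_mem_Icc t)) (hw t))
        (by apply Continuous.intervalIntegrable; fun_prop)
      exact h2
    rw [intervalIntegral.integral_const_mul, int_one_sub ε N hN] at h1
    rw [abs_mul, abs_of_pos (by positivity)]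
    calc 1 / Real.pi * |∫ t in (0:ℝ)..Real.pi, f (Real.cos t) * (1 - ε * Real.cos (N * t))|
        ≤ 1 / Real.pi * (C * Real.pi) := by gcongr
      _ = C := by field_simp

lemma wave_T (ε : ℝ) (N : ℕ) (k : ℤ) (hk : k ≠ 0) :
    wave ε N (fun t => (Chebyshev.T ℝ k).eval t) =
      -(ε / 2) * ((if k + N = 0 then 1 else 0) + if k - N = 0 then 1 else 0) := by
  have hpi := Real.pi_pos
  unfold wave
  simp only [Chebyshev.T_real_cos]
  have e : ∀ t : ℝ, Real.cos (k * t) * (1 - ε * Real.cos (N * t)) =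
      Real.cos (k * t) - ε / 2 * (Real.cos (((k + N : ℤ) : ℝ) * t) +
        Real.cos (((k - N : ℤ) : ℝ) * t)) := by
    intro t
    have h1 := cos_mul_cos (k * t) (N * t)
    have e1 : ((k + N : ℤ) : ℝ) * t = k * t + N * t := by push_cast; ring
    have e2 : ((k - N : ℤ) : ℝ) * t = k * t - N * t := by push_cast; ring
    rw [e1, e2]
    linear_combination -ε * h1
  simp only [e]
  have hval : ∀ m : ℤ, ∫ t in (0:ℝ)..Real.pi, Real.cos (m * t) =
      Real.pi * if m = 0 then 1 else 0 := by
    intro m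
    split_ifs with h
    · rw [h]; simp
    · rw [int_cos m h, mul_zero]
  have hi : ∀ m : ℤ, IntervalIntegrable (fun t => Real.cos (m * t)) volume 0 Real.pi := by
    intro m
    apply Continuous.intervalIntegrable
    fun_prop
  rw [intervalIntegral.integral_sub (hi k) (((hi _).add (hi _)).const_mul _),
    intervalIntegral.integral_const_mul, intervalIntegral.integral_add (hi _) (hi _), hval, hval,
    hval, if_neg hk]
  field_simp
  ring

lemma pts_pnf (κ : ℝ) (N : ℕ) (hN : 0 < N) : PNF (pts κ N) := by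
  have hN' : (0:ℝ) < N := by exact_mod_cast hN
  constructor
  · intro f g _ _
    unfold pts
    rw [Finset.sum_add_distrib, mul_add]
  · intro c f _
    unfold pts
    rw [← Finset.mul_sum]
    ring
  · intro C f _ hC
    unfold pts
    rw [abs_mul, abs_of_pos (by positivity)]
    calc 1 / (N:ℝ) * |∑ j ∈ Finset.range N, f (Real.cos ((2 * j + κ) * Real.pi / N))|
        ≤ 1 / (N:ℝ) * ∑ j ∈ Finset.range N, C := by
          gcongr
          refine (Finset.abs_sum_le_sum_abs _ _).trans (Finset.sum_le_sum fun j _ => ?_)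
          exact hC _ (Real.cos_mem_Icc _)
      _ = C := by
          rw [Finset.sum_const, Finset.card_range, nsmul_eq_mul]
          field_simp

lemma pts_T (κ : ℝ) (N : ℕ) (hN : 0 < N) (k : ℤ) (hk : ¬ (N : ℤ) ∣ k) :
    pts κ N (fun t => (Chebyshev.T ℝ k).eval t) = 0 := by
  have hpi := Real.pi_pos
  have hN' : (N : ℂ) ≠ 0 := by exact_mod_cast hN.ne'
  unfold pts
  simp only [Chebyshev.T_real_cos]
  have h1 : ∑ j ∈ Finset.range N, Real.cos (k * ((2 * j + κ) * Real.pi / N)) =
      (Complex.exp (k * κ * Real.pi / N * Complex.I) *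
        ∑ j ∈ Finset.range N, Complex.exp (2 * Real.pi * Complex.I * k / N) ^ j).re := by
    rw [Finset.mul_sum, Complex.re_sum]
    refine Finset.sum_congr rfl fun j _ => ?_
    rw [← Complex.exp_nat_mul, ← Complex.exp_add]
    have : (k * κ * Real.pi / N * Complex.I + j * (2 * Real.pi * Complex.I * k / N) : ℂ) =
        ((k * ((2 * j + κ) * Real.pi / N) : ℝ) : ℂ) * Complex.I := by
      push_cast
      field_simp
      ring
    rw [this, Complex.exp_ofReal_mul_I_re]
  have h2 : ∑ j ∈ Finset.range N, Complex.exp (2 * Real.pi * Complex.I * k / N) ^ j = 0 := by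
    have hne : Complex.exp (2 * Real.pi * Complex.I * k / N) ≠ 1 := by
      intro h
      rw [Complex.exp_eq_one_iff] at h
      obtain ⟨n, hn⟩ := h
      apply hk
      have hpi' : (Real.pi : ℂ) ≠ 0 := by exact_mod_cast hpi.ne'
      have hI := Complex.I_ne_zero
      have h3 : (k : ℂ) = N * n := by
        field_simp at hn
        linear_combination hn
      exact ⟨n, by exact_mod_cast h3⟩
    rw [geom_sum_eq hne]
    have h3 : Complex.exp (2 * Real.pi * Complex.I * k / N) ^ N = 1 := by
      rw [← Complex.exp_nat_mul, Complex.exp_eq_one_iff]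
      exact ⟨k, by field_simp⟩
    rw [h3, sub_self, zero_div]
  rw [h1, h2]
  simp

lemma pts_T' (κ : ℕ) (N : ℕ) (hN : 0 < N) (q : ℤ) :
    pts κ N (fun t => (Chebyshev.T ℝ (N * q)).eval t) = Real.cos (q * κ * Real.pi) := by
  have hN' : (N : ℝ) ≠ 0 := by exact_mod_cast hN.ne'
  unfold pts
  simp only [Chebyshev.T_real_cos]
  have e : ∀ j ∈ Finset.range N, Real.cos (((N * q : ℤ) : ℝ) * ((2 * j + κ) * Real.pi / N)) =
      Real.cos (q * κ * Real.pi) := by
    intro j _
    have : ((N * q : ℤ) : ℝ) * ((2 * j + κ) * Real.pi / N) =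
        q * κ * Real.pi + ((q * j : ℤ) : ℝ) * (2 * Real.pi) := by
      push_cast
      field_simp
      ring
    rw [this, Real.cos_add_int_mul_two_pi]
  rw [Finset.sum_congr rfl e, Finset.sum_const, Finset.card_range, nsmul_eq_mul]
  field_simp

end

end Pool.Agent.T2h85.RR
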