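import Mathlib

/-!
# Positive semidefinite kernels and weak limits
-/

namespace Pool.Agent.T2h85.RR

open Filter Topology

noncomputable section

/-- the form of a kernel on the finitely supported functions -/
def frm {ι : Type} (A : ι → ι → ℝ) (x y : ι →₀ ℝ) : ℝ :=
  x.sum fun i a => y.sum fun j b => a * b * A i j

lemma frm_add_left {ι : Type} (A : ι → ι → ℝ) (x y z : ι →₀ ℝ) :
    frm A (x + y) z = frm A x z + frm A y z := by
  unfold frm
  rw [Finsupp.sum_add_index']
  · intro i
    simp
  · intro i a b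
    rw [← Finsupp.sum_add]
    refine Finsupp.sum_congr fun j _ => ?_
    ring

lemma frm_smul_left {ι : Type} (A : ι → ι → ℝ) (r : ℝ) (x y : ι →₀ ℝ) :
    frm A (r • x) y = r * frm A x y := by
  unfold frm
  rw [Finsupp.sum_smul_index (by intro i; simp), Finsupp.mul_sum]
  refine Finsupp.sum_congr fun i _ => ?_
  rw [Finsupp.mul_sum]
  refine Finsupp.sum_congr fun j _ => ?_
  ring

lemma frm_symm {ι : Type} (A : ι → ι → ℝ) (hA : ∀ i j, A i j = A j i) (x y : ι →₀ ℝ) :
    frm A x y = frm A y x := by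
  unfold frm
  rw [Finsupp.sum_comm]
  refine Finsupp.sum_congr fun i _ => Finsupp.sum_congr fun j _ => ?_
  rw [hA j i]
  ring

lemma frm_single {ι : Type} (A : ι → ι → ℝ) (i j : ι) :
    frm A (Finsupp.single i 1) (Finsupp.single j 1) = A i j := by
  unfold frm
  rw [Finsupp.sum_single_index (by simp), Finsupp.sum_single_index (by simp)]
  ring

/-- a positive semidefinite kernel comes from vectors in a Hilbert space -/
theorem exists_hilbert {ι : Type} (A : ι → ι → ℝ) (hA : ∀ i j, A i j = A j i)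
    (hp : ∀ x : ι →₀ ℝ, 0 ≤ frm A x x) :
    ∃ (H : Type) (_ : NormedAddCommGroup H) (_ : InnerProductSpace ℝ H) (_ : CompleteSpace H)
      (v : ι → H), ∀ i j, inner ℝ (v i) (v j) = A i j := by
  let core : PreInnerProductSpace.Core ℝ (ι →₀ ℝ) :=
    { inner := frm A
      conj_inner_symm := fun x y => by
        rw [conj_trivial]
        exact frm_symm A hA y x
      re_inner_nonneg := fun x => by
        simpa using hp x
      add_left := fun x y z => frm_add_left A x y z
      smul_left := fun x y r => by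
        rw [conj_trivial]
        exact frm_smul_left A r x y }
  let _ : SeminormedAddCommGroup (ι →₀ ℝ) :=
    @InnerProductSpace.Core.toSeminormedAddCommGroup ℝ (ι →₀ ℝ) _ _ _ core
  let _ : InnerProductSpace ℝ (ι →₀ ℝ) := InnerProductSpace.ofCore core
  refine ⟨UniformSpace.Completion (ι →₀ ℝ), inferInstance, inferInstance, inferInstance,
    fun i => ((Finsupp.single i 1 : ι →₀ ℝ) : UniformSpace.Completion (ι →₀ ℝ)), fun i j => ?_⟩
  rw [UniformSpace.Completion.inner_coe]
  exact frm_single A i j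

/-- bounded functions converge along ultrafilters -/
theorem exists_lim {ι : Type} (U : Ultrafilter ι) {f : ι → ℝ} {C : ℝ} (h : ∀ i, |f i| ≤ C) :
    ∃ x, Tendsto f U (𝓝 x) ∧ |x| ≤ C := by
  have h1 : IsCompact (Set.Icc (-C) C) := isCompact_Icc
  have h2 : ((U.map f : Ultrafilter ℝ) : Filter ℝ) ≤ 𝓟 (Set.Icc (-C) C) := by
    rw [Ultrafilter.coe_map, Filter.le_principal_iff, Filter.mem_map]
    exact Filter.Eventually.of_forall fun ε => abs_le.1 (h ε)
  obtain ⟨x, hx0, hx⟩ := h1.ultrafilter_le_nhds (U.map f) h2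
  exact ⟨x, by rw [Ultrafilter.coe_map] at hx; exact hx, abs_le.2 hx0⟩

/-- weak limits along ultrafilters -/
theorem weak_lim {H : Type} [NormedAddCommGroup H] [InnerProductSpace ℝ H] [CompleteSpace H]
    {ι : Type} (U : Ultrafilter ι) (w : ι → H) (C : ℝ) (hC : ∀ i, ‖w i‖ ≤ C) :
    ∃ h : H, ∀ y, Tendsto (fun i => inner ℝ (w i) y) U (𝓝 (inner ℝ h y)) := by
  have hb : ∀ y : H, ∀ i, |inner ℝ (w i) y| ≤ C * ‖y‖ := fun y i =>
    (abs_real_inner_le_norm _ _).trans (mul_le_mul_of_nonneg_right (hC i) (norm_nonneg _))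
  choose L hL1 hL2 using fun y => exists_lim U (hb y)
  have hadd : ∀ x y, L (x + y) = L x + L y := fun x y => by
    refine tendsto_nhds_unique (hL1 (x + y)) (((hL1 x).add (hL1 y)).congr fun i => ?_)
    rw [inner_add_right]
  have hsmul : ∀ (r : ℝ) x, L (r • x) = r * L x := fun r x => by
    refine tendsto_nhds_unique (hL1 (r • x)) (((hL1 x).const_mul r).congr fun i => ?_)
    rw [inner_smul_right]
  let ℓ : H →ₗ[ℝ] ℝ := { toFun := L, map_add' := hadd, map_smul' := hsmul }
  let ℓc : H →L[ℝ] ℝ := ℓ.mkContinuous C fun y => hL2 y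
  refine ⟨(InnerProductSpace.toDual ℝ H).symm ℓc, fun y => ?_⟩
  rw [InnerProductSpace.toDual_symm_apply]
  exact hL1 y

end

end Pool.Agent.T2h85.RR
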