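import Pool.Agent.T2h85.RR.Law

/-!
# The L-functions of the symmetric powers
-/

set_option linter.unusedSectionVars false

namespace Pool.Agent.T2h85.RR

open Filter Topology MeasureTheory Set NumberField IsDedekindDomain
  Pool.Agent.TH553.RS Pool.Agent.W540.BE Pool.Agent.TH553.ST

noncomputable section

/-- the character of the symmetric power -/
def chiR (m : ℕ) (x : ℝ) : ℝ := ∑ j ∈ Finset.range (m + 1), Real.cos (((m : ℝ) - 2 * j) * x)

lemma chiR_zero (x : ℝ) : chiR 0 x = 1 := by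
  unfold chiR
  simp

lemma chiR_one (x : ℝ) : chiR 1 x = 2 * Real.cos x := by
  unfold chiR
  rw [Finset.sum_range_succ, Finset.sum_range_one]
  have e1 : (((1:ℕ) : ℝ) - 2 * ((0:ℕ) : ℝ)) * x = x := by push_cast; ring
  have e2 : (((1:ℕ) : ℝ) - 2 * ((1:ℕ) : ℝ)) * x = -x := by push_cast; ring
  rw [e1, e2, Real.cos_neg]
  ring

lemma chiR_succ_succ (m : ℕ) (x : ℝ) :
    chiR (m + 2) x = chiR m x + 2 * Real.cos (((m + 2 : ℕ) : ℝ) * x) := by
  unfold chiR
  rw [Finset.sum_range_succ, Finset.sum_range_succ']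
  have e1 : ∀ j ∈ Finset.range (m + 1), Real.cos ((((m + 2 : ℕ) : ℝ) - 2 * ((j + 1 : ℕ) : ℝ)) * x) =
      Real.cos (((m : ℝ) - 2 * j) * x) := by
    intro j _
    congr 1
    push_cast
    ring
  have e2 : (((m + 2 : ℕ) : ℝ) - 2 * ((m + 2 : ℕ) : ℝ)) * x = -(((m + 2 : ℕ) : ℝ) * x) := by ring
  have e3 : (((m + 2 : ℕ) : ℝ) - 2 * ((0 : ℕ) : ℝ)) * x = ((m + 2 : ℕ) : ℝ) * x := by
    push_cast
    ring
  rw [Finset.sum_congr rfl e1, e2, e3, Real.cos_neg]
  ring

lemma chiR_abs (m : ℕ) (x : ℝ) : |chiR m x| ≤ m + 1 := by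
  unfold chiR
  refine (Finset.abs_sum_le_sum_abs _ _).trans ?_
  calc ∑ j ∈ Finset.range (m + 1), |Real.cos (((m : ℝ) - 2 * j) * x)|
      ≤ ∑ _j ∈ Finset.range (m + 1), (1 : ℝ) := Finset.sum_le_sum fun j _ => Real.abs_cos_le_one _
    _ = m + 1 := by simp

/-- the symmetric power of the torus -/
def piM (m : ℕ) : Circle →* Matrix.unitaryGroup (Fin (m + 1)) ℂ where
  toFun z := ⟨Matrix.diagonal fun j : Fin (m + 1) => ((z ^ ((m : ℤ) - 2 * j) : Circle) : ℂ), by
    rw [Matrix.mem_unitaryGroup_iff, Matrix.star_eq_conjTranspose, Matrix.diagonal_conjTranspose,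
      Matrix.diagonal_mul_diagonal, ← Matrix.diagonal_one]
    congr 1
    funext j
    simp only [Pi.star_apply, RCLike.star_def]
    rw [Complex.mul_conj, Circle.normSq_coe, Complex.ofReal_one]⟩
  map_one' := by
    ext i j
    simp [Matrix.one_apply, Matrix.diagonal_apply]
  map_mul' z w := by
    ext i j
    simp only [mul_zpow, Circle.coe_mul]
    rw [Submonoid.coe_mul, Matrix.diagonal_mul_diagonal]

lemma chi_piM (m : ℕ) (x : ℝ) : chi (piM m) (Circle.exp x) = (chiR m x : ℂ) := by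
  have h1 : chi (piM m) (Circle.exp x) =
      ∑ j ∈ Finset.range (m + 1), Complex.exp ((((m : ℝ) - 2 * j) * x : ℝ) * Complex.I) := by
    unfold chi
    show (Matrix.diagonal fun j : Fin (m + 1) =>
      ((Circle.exp x ^ ((m : ℤ) - 2 * j) : Circle) : ℂ)).trace = _
    rw [Matrix.trace_diagonal, ← Fin.sum_univ_eq_sum_range (fun j : ℕ =>
      Complex.exp ((((m : ℝ) - 2 * j) * x : ℝ) * Complex.I))]
    refine Finset.sum_congr rfl fun j _ => ?_
    rw [← Circle.exp_zsmul, Circle.coe_exp]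
    congr 2
    rw [zsmul_eq_mul]
    push_cast
    ring
  rw [h1]
  have h2 : ∀ j ∈ Finset.range (m + 1),
      Complex.exp ((((m : ℝ) - 2 * j) * x : ℝ) * Complex.I) =
      ((Real.cos (((m : ℝ) - 2 * j) * x) : ℝ) : ℂ) +
        ((Real.sin (((m : ℝ) - 2 * j) * x) : ℝ) : ℂ) * Complex.I := by
    intro j _
    rw [Complex.exp_mul_I, Complex.ofReal_cos, Complex.ofReal_sin]
  rw [Finset.sum_congr rfl h2, Finset.sum_add_distrib, ← Finset.sum_mul, ← Complex.ofReal_sum,
    ← Complex.ofReal_sum]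
  have h3 : ∑ j ∈ Finset.range (m + 1), Real.sin (((m : ℝ) - 2 * j) * x) = 0 := by
    have h4 : ∑ j ∈ Finset.range (m + 1), Real.sin (((m : ℝ) - 2 * j) * x) =
        -∑ j ∈ Finset.range (m + 1), Real.sin (((m : ℝ) - 2 * j) * x) := by
      conv_lhs => rw [← Finset.sum_range_reflect]
      rw [← Finset.sum_neg_distrib]
      refine Finset.sum_congr rfl fun j hj => ?_
      have hj' := Finset.mem_range.1 hj
      rw [← Real.sin_neg]
      congr 1
      have : ((m + 1 - 1 - j : ℕ) : ℝ) = (m : ℝ) - j := by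
        rw [Nat.add_sub_cancel, Nat.cast_sub (by omega)]
      rw [this]
      ring
    linarith
  rw [h3]
  unfold chiR
  simp

variable {K : Type} [Field K] [NumberField K]

/-- the L-function of the symmetric power -/
def LSym (θ : HeightOneSpectrum (𝓞 K) → ℝ) (m : ℕ) (s : ℂ) : ℂ :=
  ∏' v : HeightOneSpectrum (𝓞 K), ∏ j : Fin (m + 1),
    (1 - Complex.exp (((m : ℂ) - 2 * (j : ℕ)) * θ v * Complex.I) *
      (Ideal.absNorm v.asIdeal : ℂ) ^ (-s))⁻¹

lemma LSym_eq (θ : HeightOneSpectrum (𝓞 K) → ℝ) (m : ℕ) (s : ℂ) :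
    LSym θ m s = L1 (piM m) (fun v => Circle.exp (θ v)) s := by
  unfold LSym L1
  refine tprod_congr fun v => ?_
  show _ = (Matrix.det (1 - (((nm K v : ℕ) : ℂ) ^ (-s)) •
    (Matrix.diagonal fun j : Fin (m + 1) =>
      ((Circle.exp (θ v) ^ ((m : ℤ) - 2 * j) : Circle) : ℂ))))⁻¹
  rw [← Matrix.diagonal_one, ← Matrix.diagonal_smul, Matrix.diagonal_sub, Matrix.det_diagonal,
    ← Finset.prod_inv_distrib]
  refine Finset.prod_congr rfl fun j _ => ?_
  congr 1
  simp only [Pi.smul_apply, smul_eq_mul]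
  have h1 : ((Circle.exp (θ v) ^ ((m : ℤ) - 2 * ((j : ℕ) : ℤ)) : Circle) : ℂ) =
      Complex.exp (((m : ℂ) - 2 * (j : ℕ)) * θ v * Complex.I) := by
    rw [← Circle.exp_zsmul, Circle.coe_exp]
    congr 1
    rw [zsmul_eq_mul]
    push_cast
    ring
  rw [h1, mul_comm]
  rfl

/-- `Λ` is a meromorphic continuation of the L-function to a neighbourhood of `1 + iτ` -/
def IsCont (θ : HeightOneSpectrum (𝓞 K) → ℝ) (m : ℕ) (τ : ℝ) (Λ : ℂ → ℂ) : Prop :=
  MeromorphicAt Λ (1 + τ * Complex.I) ∧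
    ∀ᶠ s in 𝓝 ((1 : ℂ) + τ * Complex.I), (1 : ℝ) < s.re → Λ s = LSym θ m s

section

variable {θ : HeightOneSpectrum (𝓞 K) → ℝ}

/-- the mean with a height and the order -/
theorem order_mean {m : ℕ} {τ : ℝ} {Λ : ℂ → ℂ} (h : IsCont θ m τ Λ) :
    ∃ o : ℤ, meromorphicOrderAt Λ (1 + τ * Complex.I) = o ∧
      Tendsto (qt (nm K) fun v => chiR m (θ v) * Real.cos (τ * Real.log (nm K v))) (𝓝[>] 0)
        (𝓝 (-(o : ℝ))) := by
  obtain ⟨o, h1, h2⟩ := order_L1 (π := piM m) (y := fun v => Circle.exp (θ v)) (τ := τ) h.1 (by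
    filter_upwards [h.2] with s hs hs1
    rw [hs hs1, LSym_eq])
  refine ⟨o, h1, ?_⟩
  have h3 := (size_L1 (piM m) (fun v => Circle.exp (θ v)) τ).2.add h2
  rw [zero_add] at h3
  refine h3.congr fun ε => ?_
  rw [sub_add_cancel]
  congr 1
  funext v
  rw [chi_piM]
  have hpos : (0:ℝ) < (nm K v : ℝ) := by
    have := (sysF K).sys.two_le v
    exact_mod_cast (by omega : 0 < nm K v)
  have h4 : (((nm K v : ℕ) : ℂ) ^ (-(τ * Complex.I) : ℂ)) =
      Complex.exp (((-(τ * Real.log (nm K v)) : ℝ) : ℂ) * Complex.I) := by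
    have h5 : (((nm K v : ℕ) : ℂ)) = (((nm K v : ℝ)) : ℂ) := by push_cast; rfl
    rw [h5, Complex.cpow_def_of_ne_zero (by exact_mod_cast hpos.ne'), ← Complex.ofReal_log hpos.le]
    congr 1
    push_cast
    ring
  rw [h4, Complex.re_ofReal_mul, Complex.exp_ofReal_mul_I_re, Real.cos_neg]

/-- the mean values at `s = 1` -/
theorem order_mean_zero {m : ℕ} {Λ : ℂ → ℂ} (h : IsCont θ m 0 Λ) :
    ∃ o : ℤ, meromorphicOrderAt Λ 1 = o ∧
      Tendsto (qt (nm K) fun v => chiR m (θ v)) (𝓝[>] 0) (𝓝 (-(o : ℝ))) := by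
  obtain ⟨o, h1, h2⟩ := order_mean h
  refine ⟨o, ?_, ?_⟩
  · simpa using h1
  · simpa using h2

lemma bd_chiR (m : ℕ) : Bd fun v => chiR m (θ v) := ⟨m + 1, fun _ => chiR_abs m _⟩

/-- the moments from the orders -/
theorem exists_mom {o : ℕ → ℤ}
    (h : ∀ m, 1 ≤ m → Tendsto (qt (nm K) fun v => chiR m (θ v)) (𝓝[>] 0) (𝓝 (-(o m : ℝ)))) :
    ∃ a : ℤ → ℤ, Mom θ a ∧ a 1 = -o 1 ∧ a 2 = -o 2 - 1 ∧ ∀ m : ℕ, 1 ≤ m →
      a (m + 2) = -o (m + 2) + o m := by
  set A : ℕ → ℤ := fun m => if m = 0 then 2 else if m = 1 then -o 1 else if m = 2 then -o 2 - 1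
    else -o m + o (m - 2) with hA
  refine ⟨fun k => A k.natAbs, ?_, by simp [hA], by simp [hA], ?_⟩
  · intro U hU k
    have hN := sysF K
    have hc : ∀ m : ℕ, 1 ≤ m → (M (nm K) U fun v => chiR m (θ v)) = -(o m : ℝ) := fun m hm =>
      M_of_tendsto hU (h m hm)
    have hcos : ∀ m : ℕ, (M (nm K) U fun v => Real.cos ((m : ℝ) * θ v)) = (A m : ℝ) / 2 := by
      intro m
      have hb : Bd fun v => Real.cos ((m : ℝ) * θ v) := ⟨1, fun _ => Real.abs_cos_le_one _⟩
      rcases Nat.lt_or_ge m 3 with hm | hm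
      · interval_cases m
        · simp only [Nat.cast_zero, zero_mul, Real.cos_zero]
          rw [M_one hN hU]
          simp [hA]
        · have e : (fun v => chiR 1 (θ v)) = fun v => 2 * Real.cos (((1:ℕ) : ℝ) * θ v) := by
            funext v
            rw [chiR_one]
            simp
          have h1 := hc 1 le_rfl
          rw [e, M_const_mul hN hU hb] at h1
          simp only [hA]
          norm_num
          norm_num at h1
          linarith
        · have e : (fun v => chiR 2 (θ v)) = fun v => 1 + 2 * Real.cos (((2:ℕ) : ℝ) * θ v) := by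
            funext v
            rw [chiR_succ_succ, chiR_zero]
          have h1 := hc 2 (by norm_num)
          rw [e, M_add hN hU (Bd.const 1) (hb.const_mul 2), M_const_mul hN hU hb,
            M_one hN hU] at h1
          simp only [hA]
          norm_num
          norm_num at h1
          linarith
      · obtain ⟨n, rfl⟩ : ∃ n, m = n + 2 := ⟨m - 2, by omega⟩
        have e : (fun v => chiR (n + 2) (θ v)) =
            fun v => chiR n (θ v) + 2 * Real.cos (((n + 2 : ℕ) : ℝ) * θ v) := by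
          funext v
          rw [chiR_succ_succ]
        have h1 := hc (n + 2) (by omega)
        rw [e, M_add hN hU (bd_chiR n) (hb.const_mul 2), M_const_mul hN hU hb,
          hc n (by omega)] at h1
        have e2 : A (n + 2) = -o (n + 2) + o n := by
          simp only [hA]
          rw [if_neg (by omega), if_neg (by omega), if_neg (by omega)]
          simp
        rw [e2]
        push_cast at h1 ⊢
        linarith
    rcases Int.natAbs_eq k with hk | hk
    · have := hcos k.natAbs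
      rw [← this]
      congr 1
      funext v
      congr 2
      have : (k : ℝ) = ((k.natAbs : ℕ) : ℝ) :=
        (congrArg (Int.cast : ℤ → ℝ) hk).trans (Int.cast_natCast _)
      exact this
    · have := hcos k.natAbs
      rw [← this]
      congr 1
      funext v
      rw [← Real.cos_neg]
      congr 1
      have : (k : ℝ) = -((k.natAbs : ℕ) : ℝ) := by
        refine (congrArg (Int.cast : ℤ → ℝ) hk).trans ?_
        rw [Int.cast_neg, Int.cast_natCast]
      rw [this]
      ring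
  · intro m hm
    have e : ((m : ℤ) + 2).natAbs = m + 2 := by omega
    simp only [e, hA]
    rw [if_neg (by omega), if_neg (by omega), if_neg (by omega)]
    simp

end

end

end Pool.Agent.T2h85.RR
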