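import Pool.Agent.T2h85.RR.Cls2
import Pool.Agent.T2h85.RR.Fun
import Pool.Agent.TH553.ST.Ext2

/-!
# The possible laws
-/

set_option linter.unusedSectionVars false

namespace Pool.Agent.T2h85.RR

open Filter Topology MeasureTheory Set Polynomial NumberField IsDedekindDomain
  Pool.Agent.TH553.RS Pool.Agent.W540.BE

noncomputable section

variable {K : Type} [Field K] [NumberField K]

/-- the functional of a family of angles along an ultrafilter -/
def EU (θ : HeightOneSpectrum (𝓞 K) → ℝ) (U : Ultrafilter ℝ) (f : ℝ → ℝ) : ℝ :=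
  M (nm K) U fun v => f (Real.cos (θ v))

section

variable {θ : HeightOneSpectrum (𝓞 K) → ℝ} {U : Ultrafilter ℝ}

lemma bd_f (θ : HeightOneSpectrum (𝓞 K) → ℝ) {f : ℝ → ℝ} (hf : Continuous f) :
    Bd fun v => f (Real.cos (θ v)) := by
  obtain ⟨C, hC⟩ := (isCompact_Icc (a := (-1:ℝ)) (b := 1)).exists_bound_of_continuousOn
    hf.continuousOn
  exact ⟨C, fun v => hC _ (Real.cos_mem_Icc _)⟩

lemma EU_mono (hU : (U : Filter ℝ) ≤ 𝓝[>] 0) {f g : ℝ → ℝ} (hf : Continuous f)
    (hg : Continuous g) (h : ∀ t ∈ Icc (-1:ℝ) 1, |f t| ≤ g t) : |EU θ U f| ≤ EU θ U g := by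
  rw [abs_le]
  constructor
  · have h1 := M_mono (sysF K) hU (bd_f θ hg).neg (bd_f θ hf) fun v =>
      neg_le_of_abs_le (h _ (Real.cos_mem_Icc (θ v)))
    rw [M_neg (sysF K) hU (bd_f θ hg)] at h1
    exact h1
  · exact M_mono (sysF K) hU (bd_f θ hf) (bd_f θ hg) fun v =>
      le_of_abs_le (h _ (Real.cos_mem_Icc (θ v)))

lemma EU_const (hU : (U : Filter ℝ) ≤ 𝓝[>] 0) (c : ℝ) : EU θ U (fun _ => c) = c :=
  M_const (sysF K) hU c

lemma EU_pnf (hU : (U : Filter ℝ) ≤ 𝓝[>] 0) : PNF (EU θ U) where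
  add f g hf hg := M_add (sysF K) hU (bd_f θ hf) (bd_f θ hg)
  smul c f hf := M_const_mul (sysF K) hU (bd_f θ hf) c
  bound C f hf hC := by
    have h1 := EU_mono (θ := θ) hU hf continuous_const (g := fun _ => C) hC
    rwa [EU_const hU] at h1

/-- the angles have the moments `a k / 2` along all ultrafilters -/
def Mom (θ : HeightOneSpectrum (𝓞 K) → ℝ) (a : ℤ → ℤ) : Prop :=
  ∀ U : Ultrafilter ℝ, (U : Filter ℝ) ≤ 𝓝[>] 0 → ∀ k : ℤ,
    (M (nm K) U fun v => Real.cos (k * θ v)) = (a k : ℝ) / 2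

lemma Mom.T {a : ℤ → ℤ} (h : Mom θ a) (hU : (U : Filter ℝ) ≤ 𝓝[>] 0) (k : ℤ) :
    EU θ U (fun t => (Chebyshev.T ℝ k).eval t) = (a k : ℝ) / 2 := by
  rw [← h U hU k]
  unfold EU
  simp only [Chebyshev.T_real_cos]

lemma bd_cos (k : ℤ) : Bd fun v => Real.cos (k * θ v) :=
  ⟨1, fun _ => Real.abs_cos_le_one _⟩

lemma bd_sin (k : ℤ) : Bd fun v => Real.sin (k * θ v) :=
  ⟨1, fun _ => Real.abs_sin_le_one _⟩

lemma Mom.zero {a : ℤ → ℤ} (h : Mom θ a) : a 0 = 2 := by
  have h1 := h (Ultrafilter.of (𝓝[>] 0)) (Ultrafilter.of_le _) 0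
  simp only [Int.cast_zero, zero_mul, Real.cos_zero] at h1
  rw [M_one (sysF K) (Ultrafilter.of_le _)] at h1
  have : (a 0 : ℝ) = 2 := by linarith
  exact_mod_cast this

lemma Mom.even {a : ℤ → ℤ} (h : Mom θ a) (k : ℤ) : a (-k) = a k := by
  have h1 := h (Ultrafilter.of (𝓝[>] 0)) (Ultrafilter.of_le _) k
  have h2 := h (Ultrafilter.of (𝓝[>] 0)) (Ultrafilter.of_le _) (-k)
  have e : (fun v => Real.cos (((-k : ℤ) : ℝ) * θ v)) = fun v => Real.cos (k * θ v) := by
    funext v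
    rw [← Real.cos_neg]
    congr 1
    push_cast
    ring
  rw [e, h1] at h2
  have : (a k : ℝ) = a (-k) := by linarith
  exact_mod_cast this.symm

/-- positivity -/
lemma Mom.psd_aux {a : ℤ → ℤ} (h : Mom θ a) (hU : (U : Filter ℝ) ≤ 𝓝[>] 0) (x : ℤ →₀ ℝ) :
    0 ≤ frm (fun k l => (a (k - l) : ℝ)) x x := by
  have hN := sysF K
  have h1 : 0 ≤ M (nm K) U fun v => 2 * ((∑ k ∈ x.support, x k * Real.cos (k * θ v)) ^ 2 +
      (∑ k ∈ x.support, x k * Real.sin (k * θ v)) ^ 2) := by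
    refine M_nonneg hN hU ?_ fun v => by positivity
    refine Bd.const_mul (Bd.add (Bd.sq ?_) (Bd.sq ?_)) 2
    · exact Bd.sum _ fun k _ => (bd_cos k).const_mul _
    · exact Bd.sum _ fun k _ => (bd_sin k).const_mul _
  have e : (fun v => 2 * ((∑ k ∈ x.support, x k * Real.cos (k * θ v)) ^ 2 +
      (∑ k ∈ x.support, x k * Real.sin (k * θ v)) ^ 2)) = fun v =>
      ∑ k ∈ x.support, ∑ l ∈ x.support, (2 * (x k * x l)) * Real.cos (((k - l : ℤ) : ℝ) * θ v) := by
    funext v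
    rw [sq, sq, Finset.sum_mul_sum, Finset.sum_mul_sum, ← Finset.sum_add_distrib, Finset.mul_sum]
    refine Finset.sum_congr rfl fun k _ => ?_
    rw [← Finset.sum_add_distrib, Finset.mul_sum]
    refine Finset.sum_congr rfl fun l _ => ?_
    have : ((k - l : ℤ) : ℝ) * θ v = k * θ v - l * θ v := by push_cast; ring
    rw [this, Real.cos_sub]
    ring
  rw [e, M_sum hN hU _ fun k _ => Bd.sum _ fun l _ => (bd_cos (k - l)).const_mul _] at h1
  have e2 : ∑ k ∈ x.support, (M (nm K) U fun v =>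
      ∑ l ∈ x.support, (2 * (x k * x l)) * Real.cos (((k - l : ℤ) : ℝ) * θ v)) =
      frm (fun k l => (a (k - l) : ℝ)) x x := by
    unfold frm Finsupp.sum
    refine Finset.sum_congr rfl fun k _ => ?_
    rw [M_sum hN hU _ fun l _ => (bd_cos (k - l)).const_mul _]
    refine Finset.sum_congr rfl fun l _ => ?_
    rw [M_const_mul hN hU (bd_cos (k - l)), h U hU (k - l)]
    ring
  rw [e2] at h1
  exact h1

lemma Mom.psd {a : ℤ → ℤ} (h : Mom θ a) (x : ℤ →₀ ℝ) :
    0 ≤ frm (fun k l => (a (k - l) : ℝ)) x x :=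
  h.psd_aux (Ultrafilter.of_le (𝓝[>] (0:ℝ))) x

/-- the classification of the moments -/
theorem Mom.classify {a : ℤ → ℤ} (h : Mom θ a) :
    (∃ N : ℤ, 0 < N ∧ |a N| = 2) ∨ (∀ k, k ≠ 0 → a k = 0) ∨
    (∃ N : ℤ, 0 < N ∧ ∃ ε : ℤ, (ε = 1 ∨ ε = -1) ∧
      ∀ k, k ≠ 0 → a k = if k = N ∨ k = -N then -ε else 0) ∨
    (∃ N : ℤ, 0 < N ∧ ∃ ε : ℤ, (ε = 1 ∨ ε = -1) ∧
      ∀ k, k ≠ 0 → a k = if N ∣ k then ε ^ (k / N).natAbs else 0) := by
  obtain ⟨H, i1, i2, i3, v, hv⟩ := exists_hilbert (fun k l : ℤ => (a (k - l) : ℝ))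
    (fun k l => by
      have := h.even (k - l)
      rw [neg_sub] at this
      rw [this]) h.psd
  exact RR.classify (v := v) (a := a) hv h.zero

/-- the functional does not depend on the ultrafilter -/
theorem Mom.indep {a : ℤ → ℤ} (h : Mom θ a) {U V : Ultrafilter ℝ} (hU : (U : Filter ℝ) ≤ 𝓝[>] 0)
    (hV : (V : Filter ℝ) ≤ 𝓝[>] 0) {f : ℝ → ℝ} (hf : Continuous f) : EU θ U f = EU θ V f :=
  (EU_pnf hU).ext (EU_pnf hV) (fun k => by rw [h.T hU, h.T hV]) hf

/-- a law with given moments -/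
theorem Mom.law {a : ℤ → ℤ} (h : Mom θ a) {Ψ : (ℝ → ℝ) → ℝ} (hΨ : PNF Ψ)
    (hm : ∀ k : ℤ, Ψ (fun t => (Chebyshev.T ℝ k).eval t) = (a k : ℝ) / 2)
    (hU : (U : Filter ℝ) ≤ 𝓝[>] 0) {f : ℝ → ℝ} (hf : Continuous f) : EU θ U f = Ψ f :=
  (EU_pnf hU).ext hΨ (fun k => by rw [h.T hU, hm]) hf

/-- the points where `T_N = ± 1` -/
lemma point_of {N : ℕ} (hN : 0 < N) {t : ℝ} (ht : t ∈ Icc (-1:ℝ) 1)
    (h : |(Chebyshev.T ℝ N).eval t| = 1) : ∃ j ∈ Finset.range (N + 1),
      t = Real.cos (j * Real.pi / N) := by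
  have hpi := Real.pi_pos
  have hN' : (0:ℝ) < N := by exact_mod_cast hN
  have e : Real.cos (Real.arccos t) = t := Real.cos_arccos ht.1 ht.2
  rw [← e, Chebyshev.T_real_cos] at h
  have h0 := Real.arccos_nonneg t
  have h1 := Real.arccos_le_pi t
  have hs : Real.sin ((N : ℤ) * Real.arccos t) = 0 := by
    have h2 := Real.sin_sq_add_cos_sq ((N : ℤ) * Real.arccos t)
    rw [← sq_abs (Real.cos _), h] at h2
    have : Real.sin ((N : ℤ) * Real.arccos t) ^ 2 = 0 := by linarith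
    exact pow_eq_zero_iff two_ne_zero |>.1 this
  obtain ⟨n, hn⟩ := Real.sin_eq_zero_iff.1 hs
  have hn0 : 0 ≤ n := by
    by_contra hneg
    push Not at hneg
    have : (n : ℝ) ≤ -1 := by exact_mod_cast (by omega : n ≤ -1)
    have h3 : 0 ≤ ((N : ℤ) : ℝ) * Real.arccos t := by positivity
    rw [← hn] at h3
    nlinarith
  have hnN : n ≤ N := by
    by_contra hgt
    push Not at hgt
    have h2 : ((N : ℝ) + 1) ≤ n := by exact_mod_cast (by omega : (N : ℤ) + 1 ≤ n)
    have h3 : ((N : ℤ) : ℝ) * Real.arccos t ≤ N * Real.pi := by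
      push_cast
      gcongr
    rw [← hn] at h3
    nlinarith
  refine ⟨n.toNat, Finset.mem_range.2 (by omega), ?_⟩
  have h4 : ((n.toNat : ℕ) : ℝ) = n := by
    have : ((n.toNat : ℕ) : ℤ) = n := Int.toNat_of_nonneg hn0
    exact_mod_cast this
  rw [h4, hn, ← e]
  congr 1
  rw [e]
  push_cast
  field_simp

lemma inj_points {N : ℕ} (hN : 0 < N) :
    Set.InjOn (fun j : ℕ => Real.cos (j * Real.pi / N)) (Finset.range (N + 1)) := by
  have hpi := Real.pi_pos
  have hN' : (0:ℝ) < N := by exact_mod_cast hN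
  intro i hi j hj hij
  have hb : ∀ k ∈ (Finset.range (N + 1) : Set ℕ), (k : ℝ) * Real.pi / N ∈ Icc 0 Real.pi := by
    intro k hk
    have hk1 : k < N + 1 := Finset.mem_range.1 (Finset.mem_coe.1 hk)
    have hk' : (k : ℝ) ≤ N := by
      exact_mod_cast (by omega : k ≤ N)
    constructor
    · positivity
    · rw [div_le_iff₀ hN']
      nlinarith
  have h1 := Real.injOn_cos (hb i hi) (hb j hj) hij
  have h2 : (i : ℝ) = j := by
    field_simp at h1
    exact h1
  exact_mod_cast h2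

/-- the case of a finite support -/
theorem Mom.finite {a : ℤ → ℤ} (h : Mom θ a) {N : ℤ} (hN : 0 < N) (ha : |a N| = 2) :
    ∃ w : ℕ → ℝ, (∀ j, 0 ≤ w j) ∧ ∑ j ∈ Finset.range (N.toNat + 1), w j = 1 ∧
      ∀ U : Ultrafilter ℝ, (U : Filter ℝ) ≤ 𝓝[>] 0 → ∀ f : ℝ → ℝ, Continuous f →
        EU θ U f = ∑ j ∈ Finset.range (N.toNat + 1), w j * f (Real.cos (j * Real.pi / N.toNat)) := by
  classical
  obtain ⟨n, rfl⟩ : ∃ n : ℕ, N = n := ⟨N.toNat, (Int.toNat_of_nonneg hN.le).symm⟩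
  simp only [Int.toNat_natCast]
  have hn : 0 < n := by exact_mod_cast hN
  have hU : ((Ultrafilter.of (𝓝[>] (0:ℝ)) : Ultrafilter ℝ) : Filter ℝ) ≤ 𝓝[>] 0 :=
    Ultrafilter.of_le _
  set U := Ultrafilter.of (𝓝[>] (0:ℝ)) with hUdef
  set Φ := EU θ U with hΦ
  have hP : PNF Φ := EU_pnf hU
  obtain ⟨s, hs, has⟩ : ∃ s : ℝ, |s| = 1 ∧ (a n : ℝ) / 2 = s := by
    refine ⟨(a n : ℝ) / 2, ?_, rfl⟩
    rw [abs_div]
    have : |(a n : ℝ)| = 2 := by exact_mod_cast ha
    rw [this]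
    norm_num
  have hss : s * s = 1 := by
    rw [← sq, ← sq_abs, hs]
    norm_num
  have hTc : Continuous fun t : ℝ => (Chebyshev.T ℝ n).eval t := Polynomial.continuous _
  -- the function that vanishes on the support only
  have hφ0 : Φ (fun t => 1 - s * (Chebyshev.T ℝ n).eval t) = 0 := by
    rw [hP.sub continuous_const (by fun_prop), hP.smul _ _ hTc]
    have h1 := h.T hU n
    rw [← hΦ] at h1
    rw [h1, has, hss, hΦ, EU_const hU]
    norm_num
  have hTb : ∀ t ∈ Icc (-1:ℝ) 1, |(Chebyshev.T ℝ n).eval t| ≤ 1 := by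
    intro t ht
    have e : Real.cos (Real.arccos t) = t := Real.cos_arccos ht.1 ht.2
    rw [← e, Chebyshev.T_real_cos]
    exact Real.abs_cos_le_one _
  have hφn : ∀ t ∈ Icc (-1:ℝ) 1, 0 ≤ 1 - s * (Chebyshev.T ℝ n).eval t := by
    intro t ht
    have h1 : |s * (Chebyshev.T ℝ n).eval t| ≤ 1 := by
      rw [abs_mul, hs, one_mul]
      exact hTb t ht
    have := le_abs_self (s * (Chebyshev.T ℝ n).eval t)
    linarith
  have hvan : ∀ g : ℝ → ℝ, Continuous g →
      (∀ j ∈ Finset.range (n + 1), g (Real.cos (j * Real.pi / n)) = 0) → Φ g = 0 := by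
    intro g hg hz
    by_contra hne
    have hpos : 0 < |Φ g| := abs_pos.2 hne
    set η := |Φ g| / 2 with hη
    have hη0 : 0 < η := by positivity
    -- the compact set where g is large
    set Z : Set ℝ := Icc (-1:ℝ) 1 ∩ {t | η ≤ |g t|} with hZ
    have hZc : IsCompact Z := isCompact_Icc.inter_right (isClosed_le continuous_const hg.abs)
    obtain ⟨B, hB⟩ := (isCompact_Icc (a := (-1:ℝ)) (b := 1)).exists_bound_of_continuousOn
      hg.continuousOn
    obtain ⟨δ, hδ0, hδ⟩ : ∃ δ : ℝ, 0 < δ ∧ ∀ t ∈ Z, δ ≤ 1 - s * (Chebyshev.T ℝ n).eval t := by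
      rcases Z.eq_empty_or_nonempty with hZe | hZne
      · exact ⟨1, one_pos, fun t ht => by rw [hZe] at ht; exact absurd ht (notMem_empty t)⟩
      · obtain ⟨t0, ht0, hmin⟩ := hZc.exists_isMinOn hZne
          (f := fun t => 1 - s * (Chebyshev.T ℝ n).eval t) (by fun_prop)
        refine ⟨1 - s * (Chebyshev.T ℝ n).eval t0, ?_, fun t ht => hmin ht⟩
        rcases (hφn t0 ht0.1).eq_or_lt with h1 | h1
        · exfalso
          have h2 : s * (Chebyshev.T ℝ n).eval t0 = 1 := by linarith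
          have h3 : |(Chebyshev.T ℝ n).eval t0| = 1 := by
            have h4 : |s * (Chebyshev.T ℝ n).eval t0| = 1 := by rw [h2, abs_one]
            rwa [abs_mul, hs, one_mul] at h4
          obtain ⟨j, hj, hj'⟩ := point_of hn ht0.1 h3
          have h5 := ht0.2
          simp only [Set.mem_ofPred_eq] at h5
          rw [hj', hz j hj, abs_zero] at h5
          linarith
        · exact h1
    have hB0 : 0 ≤ B := (norm_nonneg _).trans (hB 0 (by norm_num))
    have h1 : ∀ t ∈ Icc (-1:ℝ) 1, |g t| ≤ η + B / δ * (1 - s * (Chebyshev.T ℝ n).eval t) := by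
      intro t ht
      by_cases hgt : η ≤ |g t|
      · have h2 := hδ t ⟨ht, hgt⟩
        have h3 : |g t| ≤ B := hB t ht
        have h4 : B ≤ B / δ * (1 - s * (Chebyshev.T ℝ n).eval t) := by
          calc B = B / δ * δ := by field_simp
            _ ≤ _ := by gcongr
        linarith
      · push Not at hgt
        have h2 := hφn t ht
        have h3 : 0 ≤ B / δ * (1 - s * (Chebyshev.T ℝ n).eval t) := by positivity
        linarith
    have h2 := EU_mono (θ := θ) hU hg (by fun_prop) h1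
    rw [← hΦ, hP.add _ _ continuous_const (by fun_prop), hP.smul _ _ (by fun_prop), hφ0, hΦ,
      EU_const hU, mul_zero, add_zero] at h2
    linarith
  -- weights
  set p : ℕ → ℝ := fun j => Real.cos (j * Real.pi / n) with hp
  have hinj : Set.InjOn p (Finset.range (n + 1)) := inj_points hn
  set ℓ : ℕ → ℝ[X] := fun j => Lagrange.basis (Finset.range (n + 1)) p j with hℓ
  have hℓc : ∀ j, Continuous fun t => (ℓ j).eval t := fun j => Polynomial.continuous _
  have hself : ∀ j ∈ Finset.range (n + 1), (ℓ j).eval (p j) = 1 := fun j hj =>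
    Lagrange.eval_basis_self hinj hj
  have hother : ∀ i j, j ∈ Finset.range (n + 1) → i ≠ j → (ℓ i).eval (p j) = 0 :=
    fun i j hj hij => Lagrange.eval_basis_of_ne hij hj
  have hmain : ∀ f : ℝ → ℝ, Continuous f →
      Φ f = ∑ j ∈ Finset.range (n + 1), Φ (fun t => (ℓ j).eval t) * f (p j) := by
    intro f hf
    have hc : ∀ j, Continuous fun t => f (p j) * (ℓ j).eval t := fun j =>
      continuous_const.mul (hℓc j)
    have h1 := hvan (fun t => f t - ∑ j ∈ Finset.range (n + 1), f (p j) * (ℓ j).eval t)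
      (hf.sub (continuous_finsetSum _ fun j _ => hc j)) (by
        intro i hi
        show f (p i) - ∑ j ∈ Finset.range (n + 1), f (p j) * (ℓ j).eval (p i) = 0
        rw [Finset.sum_eq_single_of_mem i hi (fun j hj hne => by
          rw [hother j i hi hne, mul_zero]), hself i hi, mul_one, sub_self])
    rw [hP.sub hf (continuous_finsetSum _ fun j _ => hc j), hP.sum _ _ hc, sub_eq_zero] at h1
    rw [h1]
    refine Finset.sum_congr rfl fun j _ => ?_
    rw [hP.smul _ _ (hℓc j), mul_comm]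
  refine ⟨fun j => if j ∈ Finset.range (n + 1) then Φ (fun t => (ℓ j).eval t) else 0, ?_, ?_, ?_⟩
  · intro j
    simp only
    split_ifs with hj
    · have h1 := hmain (fun t => ((ℓ j).eval t) ^ 2) ((hℓc j).pow 2)
      rw [Finset.sum_eq_single_of_mem j hj (fun i hi hne => by
        rw [hother j i hi hne.symm]; ring), hself j hj, one_pow, mul_one] at h1
      rw [← h1]
      have h2 := EU_mono (θ := θ) (f := fun _ => 0) (g := fun t => ((ℓ j).eval t) ^ 2) hU
        continuous_const ((hℓc j).pow 2) (fun t _ => by rw [abs_zero]; positivity)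
      exact (abs_nonneg _).trans h2
    · exact le_rfl
  · have h1 := hmain (fun _ => 1) continuous_const
    rw [hΦ, EU_const hU, ← hΦ] at h1
    simp only [mul_one] at h1
    rw [h1]
    exact Finset.sum_congr rfl fun j hj => if_pos hj
  · intro V hV f hf
    rw [h.indep hV hU hf, ← hΦ, hmain f hf]
    refine Finset.sum_congr rfl fun j hj => ?_
    simp only [if_pos hj, hp]

end

end

end Pool.Agent.T2h85.RR
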