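import Pool.Agent.T2h85.RR.LFun

/-!
# The main results
-/

set_option linter.unusedSectionVars false

namespace Pool.Agent.T2h85.RR

open Filter Topology MeasureTheory Set NumberField IsDedekindDomain Polynomial
  Pool.Agent.TH553.RS Pool.Agent.W540.BE Pool.Agent.TH553.ST

noncomputable section

variable {K : Type} [Field K] [NumberField K] {θ : HeightOneSpectrum (𝓞 K) → ℝ}

/-- the law in the sense of the analytic means -/
def QLaw (θ : HeightOneSpectrum (𝓞 K) → ℝ) (Ψ : (ℝ → ℝ) → ℝ) : Prop :=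
  ∀ f : ℝ → ℝ, Continuous f → Tendsto (qt (nm K) fun v => f (Real.cos (θ v))) (𝓝[>] 0) (𝓝 (Ψ f))

lemma qlaw_of_EU {Ψ : (ℝ → ℝ) → ℝ}
    (h : ∀ U : Ultrafilter ℝ, (U : Filter ℝ) ≤ 𝓝[>] 0 → ∀ f : ℝ → ℝ, Continuous f →
      EU θ U f = Ψ f) : QLaw θ Ψ := by
  intro f hf
  refine tendsto_of_ultra fun U hU => ?_
  have h1 := M_lim (sysF K) hU (bd_f θ hf)
  have h2 : M (nm K) U (fun v => f (Real.cos (θ v))) = Ψ f := h U hU f hf
  rwa [h2] at h1

lemma QLaw.EU {Ψ : (ℝ → ℝ) → ℝ} (h : QLaw θ Ψ) {U : Ultrafilter ℝ}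
    (hU : (U : Filter ℝ) ≤ 𝓝[>] 0) {f : ℝ → ℝ} (hf : Continuous f) : EU θ U f = Ψ f :=
  M_of_tendsto hU (h f hf)

/-- a law on finitely many rational multiples of `π` -/
def FinLaw (θ : HeightOneSpectrum (𝓞 K) → ℝ) : Prop :=
  ∃ N : ℕ, 0 < N ∧ ∃ w : ℕ → ℝ, (∀ j, 0 ≤ w j) ∧ ∑ j ∈ Finset.range (N + 1), w j = 1 ∧
    QLaw θ fun f => ∑ j ∈ Finset.range (N + 1), w j * f (Real.cos (j * Real.pi / N))

/-- the mixture -/
def half (κ : ℕ) (N : ℕ) (f : ℝ → ℝ) : ℝ := (wave 0 0 f + pts κ N f) / 2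

lemma half_pnf (κ N : ℕ) (hN : 0 < N) : PNF (half κ N) := by
  have h1 := wave_pnf 0 (by simp) 0 (Or.inl rfl)
  have h2 := pts_pnf κ N hN
  constructor
  · intro f g hf hg
    unfold half
    rw [h1.add f g hf hg, h2.add f g hf hg]
    ring
  · intro c f hf
    unfold half
    rw [h1.smul c f hf, h2.smul c f hf]
    ring
  · intro C f hf hC
    unfold half
    have h3 := h1.bound C f hf hC
    have h4 := h2.bound C f hf hC
    rw [abs_div, abs_of_pos (by norm_num : (0:ℝ) < 2), div_le_iff₀ (by norm_num)]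
    refine (abs_add_le _ _).trans ?_
    linarith

lemma wave_one (ε : ℝ) (N : ℕ) (hN : ε = 0 ∨ N ≠ 0) : wave ε N (fun _ => 1) = 1 := by
  unfold wave
  simp only [one_mul]
  rw [int_one_sub ε N hN]
  have := Real.pi_pos
  field_simp

lemma pts_one (κ : ℝ) (N : ℕ) (hN : 0 < N) : pts κ N (fun _ => 1) = 1 := by
  have hN' : (0:ℝ) < N := by exact_mod_cast hN
  unfold pts
  rw [Finset.sum_const, Finset.card_range, nsmul_eq_mul]
  field_simp

lemma T_zero_fun : (fun t : ℝ => (Chebyshev.T ℝ 0).eval t) = fun _ => 1 := by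
  funext t
  simp

/-- the waves -/
lemma Mom.wave_law {a : ℤ → ℤ} (h : Mom θ a) {n : ℕ} {ε : ℤ} (hn : 0 < n)
    (hε : ε = 1 ∨ ε = -1)
    (ha : ∀ k : ℤ, k ≠ 0 → a k = if k = n ∨ k = -n then -ε else 0) : QLaw θ (wave ε n) := by
  refine qlaw_of_EU fun U hU f hf => h.law (wave_pnf ε ?_ n (Or.inr hn.ne')) (fun k => ?_) hU hf
  · rcases hε with h | h <;> rw [h] <;> norm_num
  · by_cases hk : k = 0
    · rw [hk, T_zero_fun, wave_one _ _ (Or.inr hn.ne'), h.zero]
      norm_num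
    · rw [wave_T _ _ _ hk, ha k hk]
      have hn' : (n : ℤ) ≠ 0 := by exact_mod_cast hn.ne'
      by_cases h1 : k = n
      · have e1 : ¬ (k + (n : ℤ) = 0) := by omega
        have e2 : k - (n : ℤ) = 0 := by omega
        simp only [if_pos (Or.inl h1 : k = n ∨ k = -n), if_neg e1, if_pos e2]
        push_cast
        ring
      · by_cases h2 : k = -n
        · have e1 : k + (n : ℤ) = 0 := by omega
          have e2 : ¬ (k - (n : ℤ) = 0) := by omega
          simp only [if_pos (Or.inr h2 : k = n ∨ k = -n), if_pos e1, if_neg e2]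
          push_cast
          ring
        · have e1 : ¬ (k + (n : ℤ) = 0) := by omega
          have e2 : ¬ (k - (n : ℤ) = 0) := by omega
          have e3 : ¬ (k = n ∨ k = -n) := by tauto
          simp only [if_neg e3, if_neg e1, if_neg e2]
          simp

lemma Mom.uniform_law {a : ℤ → ℤ} (h : Mom θ a) (ha : ∀ k : ℤ, k ≠ 0 → a k = 0) :
    QLaw θ (wave 0 0) := by
  refine qlaw_of_EU fun U hU f hf => h.law (wave_pnf 0 (by simp) 0 (Or.inl rfl)) (fun k => ?_) hU hf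
  by_cases hk : k = 0
  · rw [hk, T_zero_fun, wave_one _ _ (Or.inl rfl), h.zero]
    norm_num
  · rw [wave_T _ _ _ hk, ha k hk]
    simp

lemma Mom.half_law {a : ℤ → ℤ} (h : Mom θ a) {n : ℕ} {ε : ℤ} (hn : 0 < n)
    (hε : ε = 1 ∨ ε = -1)
    (ha : ∀ k : ℤ, k ≠ 0 → a k = if (n : ℤ) ∣ k then ε ^ (k / n).natAbs else 0) :
    ∃ κ : ℕ, κ ≤ 1 ∧ (κ = 0 → ε = 1) ∧ (κ = 1 → ε = -1) ∧ QLaw θ (half κ n) := by
  have hn' : (n : ℤ) ≠ 0 := by exact_mod_cast hn.ne'
  obtain ⟨κ, hκ, h0, h1⟩ : ∃ κ : ℕ, κ ≤ 1 ∧ (κ = 0 → ε = 1) ∧ (κ = 1 → ε = -1) := by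
    rcases hε with h | h
    · exact ⟨0, by norm_num, fun _ => h, fun h => by norm_num at h⟩
    · exact ⟨1, by norm_num, fun h => by norm_num at h, fun _ => h⟩
  refine ⟨κ, hκ, h0, h1, qlaw_of_EU fun U hU f hf => h.law (half_pnf κ n hn) (fun k => ?_) hU hf⟩
  unfold half
  by_cases hk : k = 0
  · rw [hk, T_zero_fun, wave_one _ _ (Or.inl rfl), pts_one _ _ hn, h.zero]
    norm_num
  · rw [wave_T _ _ _ hk, ha k hk]
    by_cases hd : (n : ℤ) ∣ k
    · obtain ⟨q, rfl⟩ := hd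
      rw [if_pos (dvd_mul_right _ _), pts_T' κ n hn q, Int.mul_ediv_cancel_left _ hn']
      have hcos : Real.cos (q * κ * Real.pi) = (ε : ℝ) ^ q.natAbs := by
        interval_cases κ
        · rw [h0 rfl]
          simp
        · rw [h1 rfl]
          have e : (q * ((1:ℕ) : ℝ) * Real.pi) = q * Real.pi := by push_cast; ring
          rw [e]
          have h2 : Real.cos (q * Real.pi) = Real.cos (q.natAbs * Real.pi) := by
            rcases Int.natAbs_eq q with h3 | h3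
            · have : (q : ℝ) = ((q.natAbs : ℕ) : ℝ) :=
                (congrArg (Int.cast : ℤ → ℝ) h3).trans (Int.cast_natCast _)
              rw [this]
            · have : (q : ℝ) = -((q.natAbs : ℕ) : ℝ) := by
                refine (congrArg (Int.cast : ℤ → ℝ) h3).trans ?_
                rw [Int.cast_neg, Int.cast_natCast]
              rw [this, neg_mul, Real.cos_neg]
          rw [h2, Real.cos_nat_mul_pi]
          push_cast
          rfl
      rw [hcos]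
      simp
    · rw [if_neg hd, pts_T κ n hn k hd]
      simp

/-- **The possible laws.** -/
theorem Mom.laws {a : ℤ → ℤ} (h : Mom θ a) :
    FinLaw θ ∨ QLaw θ (wave 0 0) ∨
    (∃ n : ℕ, 0 < n ∧ ∃ ε : ℤ, (ε = 1 ∨ ε = -1) ∧ QLaw θ (wave ε n)) ∨
    (∃ n : ℕ, 0 < n ∧ ∃ κ : ℕ, κ ≤ 1 ∧ QLaw θ (half κ n)) := by
  rcases h.classify with ⟨N, hN, ha⟩ | ha | ⟨N, hN, ε, hε, ha⟩ | ⟨N, hN, ε, hε, ha⟩
  · left
    obtain ⟨w, h1, h2, h3⟩ := h.finite hN ha
    exact ⟨N.toNat, by omega, w, h1, h2, qlaw_of_EU h3⟩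
  · exact Or.inr (Or.inl (h.uniform_law ha))
  · obtain ⟨n, rfl⟩ : ∃ n : ℕ, N = n := ⟨N.toNat, (Int.toNat_of_nonneg hN.le).symm⟩
    have hn : 0 < n := by exact_mod_cast hN
    exact Or.inr (Or.inr (Or.inl ⟨n, hn, ε, hε, h.wave_law hn hε ha⟩))
  · obtain ⟨n, rfl⟩ : ∃ n : ℕ, N = n := ⟨N.toNat, (Int.toNat_of_nonneg hN.le).symm⟩
    have hn : 0 < n := by exact_mod_cast hN
    obtain ⟨κ, h1, -, -, h2⟩ := h.half_law hn hε ha
    exact Or.inr (Or.inr (Or.inr ⟨n, hn, κ, h1, h2⟩))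

/-- **Two L-functions.** -/
theorem Mom.two {a : ℤ → ℤ} (h : Mom θ a) (h2 : a 2 ≤ -1) (h4 : a 2 + a 4 ≤ -1) :
    FinLaw θ ∨ (QLaw θ (wave 1 2) ∧ ∀ k : ℤ, k ≠ 0 → a k = if k = 2 ∨ k = -2 then -1 else 0) := by
  rcases h.classify with ⟨N, hN, ha⟩ | ha | ⟨N, hN, ε, hε, ha⟩ | ⟨N, hN, ε, hε, ha⟩
  · left
    obtain ⟨w, h1, h2, h3⟩ := h.finite hN ha
    exact ⟨N.toNat, by omega, w, h1, h2, qlaw_of_EU h3⟩
  · rw [ha 2 (by norm_num)] at h2
    norm_num at h2
  · right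
    have h3 := ha 2 (by norm_num)
    by_cases hN2 : N = 2
    · subst hN2
      rw [if_pos (Or.inl rfl)] at h3
      have hε1 : ε = 1 := by omega
      subst hε1
      have := h.wave_law (n := 2) (ε := 1) (by norm_num) (Or.inl rfl) (by
        intro k hk
        exact ha k hk)
      refine ⟨?_, ha⟩
      simpa using this
    · rw [if_neg (by omega)] at h3
      omega
  · exfalso
    have h3 := ha 2 (by norm_num)
    have h5 := ha 4 (by norm_num)
    have hpow : ∀ n : ℕ, ε ^ n = 1 ∨ ε ^ n = -1 := by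
      intro n
      rcases hε with h | h
      · left; rw [h, one_pow]
      · rw [h]; exact neg_one_pow_eq_or ℤ n
    by_cases hd : N ∣ 2
    · rw [if_pos hd] at h3
      have hN2 : N ≤ 2 := Int.le_of_dvd (by norm_num) hd
      have hcases : N = 1 ∨ N = 2 := by omega
      rcases hcases with rfl | rfl
      · have h6 : ε ^ ((2:ℤ) / 1).natAbs = 1 := by
          rcases hε with h | h <;> rw [h] <;> norm_num
        rw [h6] at h3
        omega
      · rw [if_pos (by norm_num)] at h5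
        have h6 : ε ^ ((4:ℤ) / 2).natAbs = 1 := by
          rcases hε with h | h <;> rw [h] <;> norm_num
        rw [h6] at h5
        have h7 := hpow ((2:ℤ) / 2).natAbs
        rw [← h3] at h7
        omega
    · rw [if_neg hd] at h3
      omega

end

end Pool.Agent.T2h85.RR
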