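import Pool.Agent.T2h85.RR.Main

/-!
# Natural density in the Sato-Tate case
-/

set_option linter.unusedSectionVars false

namespace Pool.Agent.T2h85.RR

open Filter Topology MeasureTheory Set NumberField IsDedekindDomain Polynomial
  Pool.Agent.TH553.RS Pool.Agent.W540.BE Pool.Agent.TH553.ST

noncomputable section

/-- the moments of the Sato-Tate law -/
def STMom (a : ℤ → ℤ) : Prop :=
  a 0 = 2 ∧ ∀ k : ℤ, k ≠ 0 → a k = if k = 2 ∨ k = -2 then -1 else 0

lemma STMom.row {a : ℤ → ℤ} (h : STMom a) (n : ℕ) (hn : 1 ≤ n) :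
    ∑ i ∈ Finset.range n, a (2 * ((n : ℤ) - i)) = -1 := by
  rw [Finset.sum_eq_single (n - 1)]
  · rw [h.2 _ (by omega), if_pos (by left; omega)]
  · intro i hi hne
    have := Finset.mem_range.1 hi
    rw [h.2 _ (by omega), if_neg (by omega)]
  · intro h1
    exact absurd (Finset.mem_range.2 (by omega)) h1

lemma STMom.row' {a : ℤ → ℤ} (h : STMom a) (n : ℕ) (hn : 1 ≤ n) :
    ∑ i ∈ Finset.range n, a (2 * ((i : ℤ) - n)) = -1 := by
  rw [Finset.sum_eq_single (n - 1)]
  · rw [h.2 _ (by omega), if_pos (by right; omega)]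
  · intro i hi hne
    have := Finset.mem_range.1 hi
    rw [h.2 _ (by omega), if_neg (by omega)]
  · intro h1
    exact absurd (Finset.mem_range.2 (by omega)) h1

lemma STMom.dbl {a : ℤ → ℤ} (h : STMom a) (n : ℕ) (hn : 1 ≤ n) :
    ∑ i ∈ Finset.range n, ∑ j ∈ Finset.range n, a (2 * ((j : ℤ) - i)) = 2 := by
  induction n, hn using Nat.le_induction with
  | base => simp [h.1]
  | succ n hn ih =>
    rw [Finset.sum_range_succ]
    have e1 : ∀ i ∈ Finset.range n, ∑ j ∈ Finset.range (n + 1), a (2 * ((j : ℤ) - i)) =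
        (∑ j ∈ Finset.range n, a (2 * ((j : ℤ) - i))) + a (2 * ((n : ℤ) - i)) := fun i _ => by
      rw [Finset.sum_range_succ]
    rw [Finset.sum_congr rfl e1, Finset.sum_add_distrib, ih, h.row n hn, Finset.sum_range_succ,
      h.row' n hn, sub_self, mul_zero, h.1]
    norm_num

lemma STMom.dbl' {a : ℤ → ℤ} (h : STMom a) (m : ℕ) :
    ∑ i ∈ Finset.range (m + 1), ∑ j ∈ Finset.range (m + 1), a (2 * ((m : ℤ) - i - j)) = 2 := by
  refine Eq.trans ?_ (h.dbl (m + 1) (by omega))
  refine Finset.sum_congr rfl fun i _ => ?_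
  rw [← Finset.sum_range_reflect (fun j : ℕ => a (2 * ((m : ℤ) - i - j))) (m + 1)]
  refine Finset.sum_congr rfl fun j hj => ?_
  have := Finset.mem_range.1 hj
  congr 1
  omega

variable {K : Type} [Field K] [NumberField K] {θ : HeightOneSpectrum (𝓞 K) → ℝ}

lemma chiR_int (m : ℕ) (x : ℝ) :
    chiR m x = ∑ j ∈ Finset.range (m + 1), Real.cos ((((m : ℤ) - 2 * j : ℤ) : ℝ) * x) := by
  unfold chiR
  refine Finset.sum_congr rfl fun j _ => ?_
  push_cast
  rfl

lemma chiR_sq (m : ℕ) (x : ℝ) : chiR m x ^ 2 = ∑ i ∈ Finset.range (m + 1),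
    ∑ j ∈ Finset.range (m + 1), ((1 / 2) * Real.cos (((2 * ((m : ℤ) - i - j) : ℤ) : ℝ) * x) +
      (1 / 2) * Real.cos (((2 * ((j : ℤ) - i) : ℤ) : ℝ) * x)) := by
  rw [sq, chiR_int, Finset.sum_mul_sum]
  refine Finset.sum_congr rfl fun i _ => Finset.sum_congr rfl fun j _ => ?_
  rw [cos_mul_cos]
  have e1 : ((((m : ℤ) - 2 * i : ℤ) : ℝ) * x + (((m : ℤ) - 2 * j : ℤ) : ℝ) * x) =
      ((2 * ((m : ℤ) - i - j) : ℤ) : ℝ) * x := by push_cast; ring
  have e2 : ((((m : ℤ) - 2 * i : ℤ) : ℝ) * x - (((m : ℤ) - 2 * j : ℤ) : ℝ) * x) =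
      ((2 * ((j : ℤ) - i) : ℤ) : ℝ) * x := by push_cast; ring
  rw [e1, e2]
  ring

variable {U : Ultrafilter ℝ}

/-- the second moment of the characters -/
lemma Mom.chiR_sq {a : ℤ → ℤ} (h : Mom θ a) (hst : STMom a) (hU : (U : Filter ℝ) ≤ 𝓝[>] 0)
    (m : ℕ) : (M (nm K) U fun v => chiR m (θ v) ^ 2) = 1 := by
  have hN := sysF K
  have hb1 : ∀ k : ℤ, Bd fun v => (1 / 2) * Real.cos (k * θ v) := fun k =>
    (bd_cos k).const_mul _
  simp only [RR.chiR_sq]
  rw [M_sum hN hU _ fun i _ => Bd.sum _ fun j _ => (hb1 _).add (hb1 _)]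
  have e : ∀ i ∈ Finset.range (m + 1), (M (nm K) U fun v => ∑ j ∈ Finset.range (m + 1),
      ((1 / 2) * Real.cos (((2 * ((m : ℤ) - i - j) : ℤ) : ℝ) * θ v) +
      (1 / 2) * Real.cos (((2 * ((j : ℤ) - i) : ℤ) : ℝ) * θ v))) =
      (1 / 4) * (((∑ j ∈ Finset.range (m + 1), a (2 * ((m : ℤ) - i - j)) : ℤ) : ℝ) +
        ((∑ j ∈ Finset.range (m + 1), a (2 * ((j : ℤ) - i)) : ℤ) : ℝ)) := by
    intro i _
    rw [M_sum hN hU _ fun j _ => (hb1 _).add (hb1 _)]
    push_cast
    rw [← Finset.sum_add_distrib, Finset.mul_sum]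
    refine Finset.sum_congr rfl fun j _ => ?_
    have h1 := h U hU (2 * ((m : ℤ) - i - j))
    have h2 := h U hU (2 * ((j : ℤ) - i))
    push_cast at h1 h2
    rw [M_add hN hU (by simpa using hb1 (2 * ((m : ℤ) - i - j)))
      (by simpa using hb1 (2 * ((j : ℤ) - i))),
      M_const_mul hN hU (by simpa using bd_cos (2 * ((m : ℤ) - i - j))),
      M_const_mul hN hU (by simpa using bd_cos (2 * ((j : ℤ) - i))), h1, h2]
    ring
  rw [Finset.sum_congr rfl e, ← Finset.mul_sum, Finset.sum_add_distrib, ← Int.cast_sum,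
    ← Int.cast_sum, hst.dbl' m, hst.dbl (m + 1) (by omega)]
  norm_num

/-- the first moment of the characters -/
lemma Mom.chiR_mean {a : ℤ → ℤ} (h : Mom θ a) (hst : STMom a) (hU : (U : Filter ℝ) ≤ 𝓝[>] 0)
    (m : ℕ) : (M (nm K) U fun v => chiR (m + 1) (θ v)) = 0 := by
  have hN := sysF K
  induction m using Nat.twoStepInduction with
  | zero =>
    have e : (fun v => chiR (0 + 1) (θ v)) = fun v => 2 * Real.cos (((1:ℤ) : ℝ) * θ v) := by
      funext v
      rw [zero_add, chiR_one]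
      simp
    rw [e, M_const_mul hN hU (bd_cos 1), h U hU 1, hst.2 1 (by norm_num), if_neg (by norm_num)]
    simp
  | one =>
    have e : (fun v => chiR (1 + 1) (θ v)) = fun v => 1 + 2 * Real.cos (((2:ℤ) : ℝ) * θ v) := by
      funext v
      rw [chiR_succ_succ, chiR_zero]
      simp
    rw [e, M_add hN hU (Bd.const 1) ((bd_cos 2).const_mul 2), M_const_mul hN hU (bd_cos 2),
      M_one hN hU, h U hU 2, hst.2 2 (by norm_num), if_pos (by norm_num)]
    norm_num
  | more m ih _ =>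
    have e : (fun v => chiR (m + 2 + 1) (θ v)) = fun v => chiR (m + 1) (θ v) +
        2 * Real.cos ((((m : ℤ) + 3 : ℤ) : ℝ) * θ v) := by
      funext v
      rw [show m + 2 + 1 = (m + 1) + 2 by ring, chiR_succ_succ]
      push_cast
      ring_nf
    rw [e, M_add hN hU (bd_chiR _) ((bd_cos _).const_mul 2), M_const_mul hN hU (bd_cos _), ih,
      h U hU _, hst.2 _ (by omega), if_neg (by omega)]
    simp

/-- the heights have mean zero -/
lemma height_mean (hU : (U : Filter ℝ) ≤ 𝓝[>] 0) {τ : ℝ} (hτ : τ ≠ 0) :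
    (M (nm K) U fun v => Real.cos (τ * Real.log (nm K v))) = 0 := by
  have h1 : Tendsto (mn fun _ : HeightOneSpectrum (𝓞 K) => (1 : ℂ)) atTop (𝓝 1) := by
    refine tendsto_const_nhds.congr' ?_
    filter_upwards [card_ev (K := K)] with n hn
    unfold mn
    rw [Finset.sum_const, Complex.real_smul, nsmul_eq_mul, mul_one]
    have hn' : ((upto K n).card : ℂ) ≠ 0 := by exact_mod_cast hn
    push_cast
    rw [inv_mul_cancel₀ hn']
  have h3 := mean_edge (g := fun _ : HeightOneSpectrum (𝓞 K) => (1 : ℂ)) (B := 1)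
    (fun v => by simp) (1 : ℝ) (by
      have := mn_tendsto h1
      simpa using this) τ
  rw [if_neg hτ] at h3
  refine M_of_tendsto hU (h3.congr fun ε => ?_)
  unfold qt
  congr 2
  funext v
  have hpos : (0:ℝ) < (nm K v : ℝ) := by
    have := (sysF K).sys.two_le v
    exact_mod_cast (by omega : 0 < nm K v)
  have h4 : (((nm K v : ℕ) : ℂ) ^ (-(τ * Complex.I) : ℂ)) =
      Complex.exp (((-(τ * Real.log (nm K v)) : ℝ) : ℂ) * Complex.I) := by
    have h5 : (((nm K v : ℕ) : ℂ)) = (((nm K v : ℝ)) : ℂ) := by push_cast; rfl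
    rw [h5, Complex.cpow_def_of_ne_zero (by exact_mod_cast hpos.ne'), ← Complex.ofReal_log hpos.le]
    congr 1
    push_cast
    ring
  rw [one_mul, h4, Complex.exp_ofReal_mul_I_re, Real.cos_neg]

lemma height_sq (hU : (U : Filter ℝ) ≤ 𝓝[>] 0) {τ : ℝ} (hτ : τ ≠ 0) :
    (M (nm K) U fun v => Real.cos (τ * Real.log (nm K v)) ^ 2) = 1 / 2 := by
  have hN := sysF K
  have hb : Bd fun v : HeightOneSpectrum (𝓞 K) => Real.cos ((2 * τ) * Real.log (nm K v)) :=
    ⟨1, fun _ => Real.abs_cos_le_one _⟩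
  have e : (fun v : HeightOneSpectrum (𝓞 K) => Real.cos (τ * Real.log (nm K v)) ^ 2) =
      fun v => 1 / 2 + (1 / 2) * Real.cos ((2 * τ) * Real.log (nm K v)) := by
    funext v
    have : (2 * τ) * Real.log (nm K v) = 2 * (τ * Real.log (nm K v)) := by ring
    rw [this, Real.cos_two_mul]
    ring
  rw [e, M_add hN hU (Bd.const _) (hb.const_mul _), M_const_mul hN hU hb, M_const hN hU,
    height_mean hU (by simpa using hτ)]
  norm_num

/-- **All orders are zero.** -/
theorem Mom.order_zero {a : ℤ → ℤ} (h : Mom θ a) (hst : STMom a) {m : ℕ} (hm : 1 ≤ m) {τ : ℝ}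
    {Λ : ℂ → ℂ} (hΛ : IsCont θ m τ Λ) : meromorphicOrderAt Λ (1 + τ * Complex.I) = 0 := by
  have hN := sysF K
  obtain ⟨o, h1, h2⟩ := order_mean hΛ
  have hU : ((Ultrafilter.of (𝓝[>] (0:ℝ)) : Ultrafilter ℝ) : Filter ℝ) ≤ 𝓝[>] 0 :=
    Ultrafilter.of_le _
  have h3 := M_of_tendsto hU h2
  have ho : o = 0 := by
    by_cases hτ : τ = 0
    · rw [hτ] at h3
      simp only [zero_mul, Real.cos_zero, mul_one] at h3
      obtain ⟨n, rfl⟩ : ∃ n, m = n + 1 := ⟨m - 1, by omega⟩
      rw [h.chiR_mean hst hU] at h3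
      have : (o : ℝ) = 0 := by linarith
      exact_mod_cast this
    · have hb : Bd fun v : HeightOneSpectrum (𝓞 K) => Real.cos (τ * Real.log (nm K v)) :=
        ⟨1, fun _ => Real.abs_cos_le_one _⟩
      have h4 := M_cs hN hU (bd_chiR (θ := θ) m) hb
      rw [h3, h.chiR_sq hst hU, height_sq hU hτ] at h4
      have h5 : ((o ^ 2 : ℤ) : ℝ) < ((1 : ℤ) : ℝ) := by
        push_cast
        rw [neg_sq] at h4
        linarith
      have h6 : o ^ 2 < 1 := by exact_mod_cast h5
      nlinarith [sq_nonneg o]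
  rw [h1, ho]
  rfl

/-- the averages of the characters -/
theorem Mom.avg {a : ℤ → ℤ} (h : Mom θ a) (hst : STMom a) {m : ℕ} (hm : 1 ≤ m)
    (hΛ : ∀ τ : ℝ, ∃ Λ, IsCont θ m τ Λ) :
    Tendsto (mn fun v => chiR m (θ v)) atTop (𝓝 0) := by
  have h1 : Tendsto (mn fun v => chi (piM m) (Circle.exp (θ v))) atTop (𝓝 0) := by
    refine avg_L1 (π := piM m) (y := fun v => Circle.exp (θ v)) fun τ => ?_
    obtain ⟨Λ, h2⟩ := hΛ τ
    refine ⟨Λ, h2.1, ?_, h.order_zero hst hm h2⟩
    filter_upwards [h2.2] with s hs hs1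
    rw [hs hs1, LSym_eq]
  simp only [chi_piM] at h1
  have h2 := (Complex.continuous_re.tendsto _).comp h1
  refine h2.congr fun n => ?_
  simp only [Function.comp]
  rw [re_mn]
  rfl

lemma mn_add (g h : HeightOneSpectrum (𝓞 K) → ℝ) (N : ℕ) :
    mn (fun v => g v + h v) N = mn g N + mn h N := by
  unfold mn
  rw [Finset.sum_add_distrib, smul_add]

lemma mn_const_mul (c : ℝ) (g : HeightOneSpectrum (𝓞 K) → ℝ) (N : ℕ) :
    mn (fun v => c * g v) N = c * mn g N := by
  unfold mn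
  rw [← Finset.mul_sum, smul_eq_mul, smul_eq_mul]
  ring

lemma mn_abs {g : HeightOneSpectrum (𝓞 K) → ℝ} {C : ℝ} (hC : 0 ≤ C) (hg : ∀ v, |g v| ≤ C) (N : ℕ) :
    |mn g N| ≤ C := by
  unfold mn
  rw [smul_eq_mul, abs_mul, abs_of_nonneg (by positivity)]
  rcases Nat.eq_zero_or_pos (upto K N).card with h0 | h0
  · rw [h0]
    simpa using hC
  · have h1 : |∑ v ∈ upto K N, g v| ≤ (upto K N).card * C := by
      refine (Finset.abs_sum_le_sum_abs _ _).trans ?_
      rw [← nsmul_eq_mul]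
      exact Finset.sum_le_card_nsmul _ _ _ fun v _ => hg v
    have h2 : (0:ℝ) < (upto K N).card := by exact_mod_cast h0
    calc ((upto K N).card : ℝ)⁻¹ * |∑ v ∈ upto K N, g v|
        ≤ ((upto K N).card : ℝ)⁻¹ * ((upto K N).card * C) := by gcongr
      _ = C := by field_simp

/-- the natural moments of the Sato-Tate law -/
theorem avg_cos (h : ∀ m, 1 ≤ m → Tendsto (mn fun v => chiR m (θ v)) atTop (𝓝 0)) (m : ℕ) :
    Tendsto (mn fun v => Real.cos ((m : ℝ) * θ v)) atTop
      (𝓝 (if m = 0 then 1 else if m = 2 then -(1 / 2) else 0)) := by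
  have hone : Tendsto (mn fun _ : HeightOneSpectrum (𝓞 K) => (1 : ℝ)) atTop (𝓝 1) := by
    refine tendsto_const_nhds.congr' ?_
    filter_upwards [card_ev (K := K)] with n hn
    unfold mn
    rw [Finset.sum_const, smul_eq_mul, nsmul_eq_mul, mul_one, inv_mul_cancel₀ hn]
  rcases Nat.lt_or_ge m 3 with hm | hm
  · interval_cases m
    · simpa using hone
    · have e : (fun v => Real.cos (((1:ℕ) : ℝ) * θ v)) = fun v => (1 / 2) * chiR 1 (θ v) := by
        funext v
        rw [chiR_one]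
        simp
      rw [e]
      have h1 := (h 1 le_rfl).const_mul (1 / 2)
      rw [mul_zero] at h1
      simp only [one_ne_zero, if_false, OfNat.one_ne_ofNat]
      exact h1.congr fun N => (mn_const_mul _ _ _).symm
    · have e : (fun v => Real.cos (((2:ℕ) : ℝ) * θ v)) =
          fun v => (1 / 2) * chiR 2 (θ v) + (-(1 / 2)) * 1 := by
        funext v
        rw [chiR_succ_succ, chiR_zero]
        norm_num
        ring
      rw [e]
      have h1 := ((h 2 (by norm_num)).const_mul (1 / 2)).add (hone.const_mul (-(1 / 2)))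
      rw [mul_zero, zero_add, mul_one] at h1
      simp only [OfNat.ofNat_ne_zero, if_false, if_true]
      refine h1.congr fun N => ?_
      rw [mn_add, mn_const_mul, mn_const_mul]
  · obtain ⟨n, rfl⟩ : ∃ n, m = n + 2 := ⟨m - 2, by omega⟩
    have e : (fun v => Real.cos (((n + 2 : ℕ) : ℝ) * θ v)) =
        fun v => (1 / 2) * chiR (n + 2) (θ v) + (-(1 / 2)) * chiR n (θ v) := by
      funext v
      rw [chiR_succ_succ]
      ring
    rw [e, if_neg (by omega), if_neg (by omega)]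
    have h1 := ((h (n + 2) (by omega)).const_mul (1 / 2)).add
      ((h n (by omega)).const_mul (-(1 / 2)))
    rw [mul_zero, mul_zero, add_zero] at h1
    refine h1.congr fun N => ?_
    rw [mn_add, mn_const_mul, mn_const_mul]

/-- limits along ultrafilters of the averages -/
def NU (θ : HeightOneSpectrum (𝓞 K) → ℝ) (V : Ultrafilter ℕ) (f : ℝ → ℝ) : ℝ :=
  limUnder (V : Filter ℕ) (mn fun v => f (Real.cos (θ v)))

lemma abs_f {f : ℝ → ℝ} {C : ℝ} (hC : ∀ t ∈ Icc (-1:ℝ) 1, |f t| ≤ C) (v : HeightOneSpectrum (𝓞 K)) :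
    |f (Real.cos (θ v))| ≤ C := hC _ ⟨Real.neg_one_le_cos _, Real.cos_le_one _⟩

lemma exists_bd {f : ℝ → ℝ} (hf : Continuous f) : ∃ C : ℝ, 0 ≤ C ∧ ∀ t ∈ Icc (-1:ℝ) 1, |f t| ≤ C := by
  obtain ⟨C, hC⟩ := isCompact_Icc.exists_bound_of_continuousOn (s := Icc (-1:ℝ) 1) hf.continuousOn
  exact ⟨C, (norm_nonneg _).trans (hC 0 (by norm_num)), hC⟩

lemma NU_lim (V : Ultrafilter ℕ) {f : ℝ → ℝ} (hf : Continuous f) :
    Tendsto (mn fun v => f (Real.cos (θ v))) V (𝓝 (NU θ V f)) := by
  obtain ⟨C, hC0, hC⟩ := exists_bd hf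
  obtain ⟨x, hx, -⟩ := RR.exists_lim V (f := mn fun v => f (Real.cos (θ v))) (C := C) fun N =>
    mn_abs hC0 (abs_f hC) N
  exact tendsto_nhds_limUnder ⟨x, hx⟩

lemma NU_pnf (V : Ultrafilter ℕ) : PNF (NU θ V) where
  add f g hf hg := by
    refine tendsto_nhds_unique (NU_lim V (hf.add hg)) (((NU_lim V hf).add (NU_lim V hg)).congr
      fun N => ?_)
    rw [mn_add]
  smul c f hf := by
    refine tendsto_nhds_unique (NU_lim V (continuous_const.mul hf))
      (((NU_lim V hf).const_mul c).congr fun N => ?_)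
    rw [mn_const_mul]
  bound C f hf hC := by
    have hC0 : 0 ≤ C := (abs_nonneg _).trans (hC 0 (by norm_num))
    exact le_of_tendsto ((NU_lim V hf).abs) (Filter.Eventually.of_forall fun N =>
      mn_abs hC0 (abs_f hC) N)

/-- **The natural density.** -/
theorem nat_law (h : ∀ m, 1 ≤ m → Tendsto (mn fun v => chiR m (θ v)) atTop (𝓝 0)) {f : ℝ → ℝ}
    (hf : Continuous f) : Tendsto (mn fun v => f (Real.cos (θ v))) atTop (𝓝 (wave 1 2 f)) := by
  rw [Filter.tendsto_iff_ultrafilter]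
  intro V hV
  have h1 := NU_lim (θ := θ) V hf
  have h2 : NU θ V f = wave 1 2 f := by
    refine (NU_pnf V).ext (wave_pnf 1 (by simp) 2 (Or.inr two_ne_zero)) (fun k => ?_) hf
    have h3 : Tendsto (mn fun v => (Chebyshev.T ℝ k).eval (Real.cos (θ v))) atTop
        (𝓝 (wave 1 2 fun t => (Chebyshev.T ℝ k).eval t)) := by
      simp only [Chebyshev.T_real_cos]
      have h4 := avg_cos h k.natAbs
      have e1 : (fun v => Real.cos ((k : ℝ) * θ v)) =
          fun v => Real.cos ((k.natAbs : ℝ) * θ v) := by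
        funext v
        rcases Int.natAbs_eq k with hk | hk
        · have : (k : ℝ) = ((k.natAbs : ℕ) : ℝ) :=
            (congrArg (Int.cast : ℤ → ℝ) hk).trans (Int.cast_natCast _)
          rw [this]
        · have : (k : ℝ) = -((k.natAbs : ℕ) : ℝ) := by
            refine (congrArg (Int.cast : ℤ → ℝ) hk).trans ?_
            rw [Int.cast_neg, Int.cast_natCast]
          rw [this, neg_mul, Real.cos_neg]
      rw [e1]
      have e2 : (wave 1 2 fun t => (Chebyshev.T ℝ k).eval t) =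
          if k.natAbs = 0 then 1 else if k.natAbs = 2 then -(1 / 2) else 0 := by
        by_cases hk : k = 0
        · rw [hk, T_zero_fun, wave_one _ _ (Or.inr two_ne_zero)]
          simp
        · have hk0 : ¬ k.natAbs = 0 := by omega
          rw [wave_T _ _ _ hk, if_neg hk0]
          by_cases h5 : k.natAbs = 2
          · rw [if_pos h5]
            rcases Int.natAbs_eq k with hk' | hk'
            · have e3 : ¬ (k + ((2:ℕ):ℤ) = 0) := by omega
              have e4 : k - ((2:ℕ):ℤ) = 0 := by omega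
              rw [if_neg e3, if_pos e4]
              norm_num
            · have e3 : k + ((2:ℕ):ℤ) = 0 := by omega
              have e4 : ¬ (k - ((2:ℕ):ℤ) = 0) := by omega
              rw [if_pos e3, if_neg e4]
              norm_num
          · have e3 : ¬ (k + ((2:ℕ):ℤ) = 0) := by omega
            have e4 : ¬ (k - ((2:ℕ):ℤ) = 0) := by omega
            rw [if_neg h5, if_neg e3, if_neg e4]
            norm_num
      rw [e2]
      exact h4
    exact (h3.mono_left hV).limUnder_eq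
  rw [← h2]
  exact h1

end

end Pool.Agent.T2h85.RR
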